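import Mathlib

/-!
# AT (MP_b39724_nt) DLM: dominated convergence (pure analysis), 100-150 lines. File Pool/Agent/H67/AT/Dlm.lean

* `dsum`: `∑_{i ∈ T} s i (1 + log D i)^3 / (D i)^c ≤ C'` for all finite `T ⊆ P`. Let `η = (c - 1) / 2 > 0`. For `x ≥ 1`: `(1 + log (2 x))^r (1 + log (2 x))^3 ≤ C₁ x ^ η` (`Real.isLittleO_log_id_atTop`-type facts, or `Real.log_le_rpow_div`:
  `1 + log (2 x) ≤ A x ^ ε` with `ε = η / (|r| + 4)`). Let `j i = Nat.log 2 ⌊D i⌋₊` (`2 ^ j ≤ D i < 2 ^ (j + 1)`, see `etop` in H67/AQ/Etp.lean for these lines); the `i ∈ T` with `j i = j` have `D i ≤ 2 ^ (j + 1)`, so by `hsm`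
  their part is at most `C 2 ^ (j + 1) (1 + log 2 ^ (j + 1)) ^ r (1 + log 2 ^ (j + 1)) ^ 3 / 2 ^ (j c) ≤ 2 C C₁ 2 ^ (-j η)`: sum of a geometric series (`Finset.sum_fiberwise_of_maps_to`, `sum_le_tsum` or `geom_sum` bounds).
* `dlim`: index type `P` (subtype). `f X i = if D i ^ c ≤ X then N i (X / D i ^ c) / X else 0`, bound `b i = C (s i (1 + log D i)^3) / D i ^ c`, summable by `dsum` (`summable_of_sum_le`). Limit of `f X i`: `w i / D i ^ c` (for `X ≥ D i ^ c` it is `(N i Y / Y) / D i ^ c` with `Y = X / D i ^ c → ∞`).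
  `tendsto_tsum_of_dominated_convergence`; `∑ i ∈ T X, N i (X / D i ^ c) = X ∑' i, f X i` (`tsum_eq_sum`, finite support). `L = ∑' i : P, w i / D i ^ c`, `0 ≤ w i` (limit of nonnegative numbers); if `w i > 0` for some `i` then `L > 0` (`Summable.tsum_pos` or
  `le_tsum`; `w i / D i ^ c ≤ b i` by `le_of_tendsto`, so the series converges).
-/

set_option autoImplicit false

open scoped Classical
open Filter Topology

noncomputable section

namespace H67.AT

variable {ι : Type}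

/-- powers of the logarithm are smaller than any power -/
private theorem dl_log (r η : ℝ) (hη : 0 < η) :
    ∃ C₁ : ℝ, 0 ≤ C₁ ∧ ∀ x : ℝ, 1 ≤ x →
      (1 + Real.log (2 * x)) ^ r * (1 + Real.log (2 * x)) ^ 3 ≤ C₁ * x ^ η := by
  have hr : 0 ≤ |r| := abs_nonneg r
  obtain ⟨ε, hε⟩ : ∃ ε : ℝ, ε = η / (|r| + 4) := ⟨_, rfl⟩
  have hε0 : 0 < ε := by rw [hε]; positivity
  have hεη : ε * (|r| + 3) ≤ η := by
    rw [hε, div_mul_eq_mul_div, div_le_iff₀ (by positivity)]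
    nlinarith
  refine ⟨(2 + 1 / ε) ^ (|r| + 3), by positivity, ?_⟩
  intro x hx
  have hx0 : 0 < x := lt_of_lt_of_le one_pos hx
  obtain ⟨u, hu⟩ : ∃ u : ℝ, u = 1 + Real.log (2 * x) := ⟨_, rfl⟩
  rw [← hu]
  have hu1 : 1 ≤ u := by
    rw [hu]
    have := Real.log_nonneg (show (1 : ℝ) ≤ 2 * x by linarith)
    linarith
  have hu0 : 0 < u := lt_of_lt_of_le one_pos hu1
  have hxe : 1 ≤ x ^ ε := Real.one_le_rpow hx hε0.le
  have hu2 : u ≤ (2 + 1 / ε) * x ^ ε := by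
    have h1 : Real.log x ≤ x ^ ε / ε := Real.log_le_rpow_div hx0.le hε0
    have h2 : Real.log (2 * x) = Real.log 2 + Real.log x :=
      Real.log_mul (by norm_num) hx0.ne'
    have h3 : Real.log 2 ≤ 1 := by
      have := Real.log_two_lt_d9
      linarith
    have h4 : x ^ ε / ε = 1 / ε * x ^ ε := by ring
    rw [hu, h2]
    rw [h4] at h1
    linarith
  have h5 : u ^ r * u ^ 3 ≤ u ^ (|r| + 3) := by
    rw [Real.rpow_add hu0]
    have h6 : u ^ r ≤ u ^ |r| := Real.rpow_le_rpow_of_exponent_le hu1 (le_abs_self r)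
    have h7 : u ^ (3 : ℝ) = u ^ (3 : ℕ) := by
      rw [← Real.rpow_natCast]
      norm_num
    rw [h7]
    exact mul_le_mul_of_nonneg_right h6 (by positivity)
  refine h5.trans ?_
  calc u ^ (|r| + 3) ≤ ((2 + 1 / ε) * x ^ ε) ^ (|r| + 3) :=
        Real.rpow_le_rpow hu0.le hu2 (by positivity)
    _ = (2 + 1 / ε) ^ (|r| + 3) * x ^ (ε * (|r| + 3)) := by
        rw [Real.mul_rpow (by positivity) (by positivity), ← Real.rpow_mul hx0.le]
    _ ≤ (2 + 1 / ε) ^ (|r| + 3) * x ^ η :=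
        mul_le_mul_of_nonneg_left (Real.rpow_le_rpow_of_exponent_le hx hεη) (by positivity)

theorem dsum (P : Set ι) (D s : ι → ℝ) (C r c : ℝ) (hc : 1 < c)
    (hD : ∀ i ∈ P, 1 ≤ D i) (hs : ∀ i ∈ P, 0 ≤ s i)
    (hsm : ∀ R : ℝ, 1 ≤ R → ∀ T : Finset ι, (∀ i ∈ T, i ∈ P ∧ D i ≤ R) →
      ∑ i ∈ T, s i ≤ C * R * (1 + Real.log R) ^ r) :
    ∃ C' : ℝ, ∀ T : Finset ι, (∀ i ∈ T, i ∈ P) →
      ∑ i ∈ T, s i * (1 + Real.log (D i)) ^ 3 / D i ^ c ≤ C' := by
  have hC : 0 ≤ C := by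
    have h := hsm 1 le_rfl ∅ (by simp)
    simpa using h
  obtain ⟨η, hη⟩ : ∃ η : ℝ, η = (c - 1) / 2 := ⟨_, rfl⟩
  have hη0 : 0 < η := by rw [hη]; linarith
  obtain ⟨C₁, hC₁, hlog⟩ := dl_log r η hη0
  obtain ⟨ρ, hρ⟩ : ∃ ρ : ℝ, ρ = (2 : ℝ) ^ (-η) := ⟨_, rfl⟩
  have hρ0 : 0 < ρ := by rw [hρ]; positivity
  have hρ1 : ρ < 1 := by
    rw [hρ]
    exact Real.rpow_lt_one_of_one_lt_of_neg (by norm_num) (by linarith)
  have hgs : Summable (fun k : ℕ => ρ ^ k) := summable_geometric_of_lt_one hρ0.le hρ1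
  refine ⟨2 * C * C₁ * ∑' k : ℕ, ρ ^ k, ?_⟩
  intro T hT
  have hc1 : ∀ i ∈ T, (1 : ℝ) ≤ D i := fun i hi => hD i (hT i hi)
  have hs0 : ∀ i ∈ T, 0 ≤ s i := fun i hi => hs i (hT i hi)
  set j : ι → ℕ := fun i => Nat.log 2 ⌊D i⌋₊ with hj
  have hlow : ∀ i ∈ T, (2 : ℝ) ^ j i ≤ D i := by
    intro i hi
    have h1 : ⌊D i⌋₊ ≠ 0 := (Nat.floor_pos.2 (hc1 i hi)).ne'
    have h2 : 2 ^ j i ≤ ⌊D i⌋₊ := Nat.pow_log_le_self 2 h1
    have h3 : ((2 ^ j i : ℕ) : ℝ) ≤ (⌊D i⌋₊ : ℝ) := by exact_mod_cast h2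
    push_cast at h3
    exact h3.trans (Nat.floor_le (by linarith [hc1 i hi]))
  have hup : ∀ i ∈ T, D i ≤ 2 * 2 ^ (j i) := by
    intro i hi
    have h2 : ⌊D i⌋₊ < 2 ^ (j i + 1) := Nat.lt_pow_succ_log_self (by norm_num) _
    have h3 : ((⌊D i⌋₊ + 1 : ℕ) : ℝ) ≤ ((2 ^ (j i + 1) : ℕ) : ℝ) := by exact_mod_cast h2
    push_cast at h3
    rw [pow_succ, mul_comm ((2 : ℝ) ^ j i) 2] at h3
    exact (Nat.lt_floor_add_one _).le.trans h3
  -- one block
  have hfib : ∀ k : ℕ, ∑ i ∈ T with j i = k, s i * (1 + Real.log (D i)) ^ 3 / D i ^ c ≤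
      2 * C * C₁ * ρ ^ k := by
    intro k
    obtain ⟨x, hx⟩ : ∃ x : ℝ, x = 2 ^ k := ⟨_, rfl⟩
    have hx1 : 1 ≤ x := by rw [hx]; exact one_le_pow₀ one_le_two
    have hx0 : 0 < x := lt_of_lt_of_le one_pos hx1
    have hl0 : 0 ≤ Real.log (2 * x) := Real.log_nonneg (by linarith)
    have h3 := hsm (2 * x) (by linarith) (T.filter fun i => j i = k) (by
      intro i hi
      obtain ⟨hi1, hi2⟩ := Finset.mem_filter.1 hi
      refine ⟨hT i hi1, ?_⟩
      have h4 := hup i hi1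
      rw [hi2, ← hx] at h4
      exact h4)
    have hxc : 0 < x ^ c := by positivity
    have hlr : 0 ≤ (1 + Real.log (2 * x)) ^ 3 / x ^ c := by positivity
    calc ∑ i ∈ T with j i = k, s i * (1 + Real.log (D i)) ^ 3 / D i ^ c
        ≤ ∑ i ∈ T with j i = k, s i * ((1 + Real.log (2 * x)) ^ 3 / x ^ c) := by
          refine Finset.sum_le_sum fun i hi => ?_
          obtain ⟨hi1, hi2⟩ := Finset.mem_filter.1 hi
          have h4 := hup i hi1
          have h5 := hlow i hi1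
          rw [hi2, ← hx] at h4 h5
          have h6 := hc1 i hi1
          have h7 : Real.log (D i) ≤ Real.log (2 * x) := Real.log_le_log (by linarith) h4
          have h8 : 0 ≤ Real.log (D i) := Real.log_nonneg h6
          have h9 : (1 + Real.log (D i)) ^ 3 ≤ (1 + Real.log (2 * x)) ^ 3 :=
            pow_le_pow_left₀ (by linarith) (by linarith) 3
          have h10 : x ^ c ≤ D i ^ c := Real.rpow_le_rpow hx0.le h5 (by linarith)
          rw [mul_div_assoc]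
          refine mul_le_mul_of_nonneg_left ?_ (hs0 i hi1)
          exact div_le_div₀ (by positivity) h9 hxc h10
      _ = (∑ i ∈ T with j i = k, s i) * ((1 + Real.log (2 * x)) ^ 3 / x ^ c) := by
          rw [Finset.sum_mul]
      _ ≤ (C * (2 * x) * (1 + Real.log (2 * x)) ^ r) * ((1 + Real.log (2 * x)) ^ 3 / x ^ c) :=
          mul_le_mul_of_nonneg_right h3 hlr
      _ = 2 * C * (x / x ^ c) * ((1 + Real.log (2 * x)) ^ r * (1 + Real.log (2 * x)) ^ 3) := by
          ring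
      _ ≤ 2 * C * (x / x ^ c) * (C₁ * x ^ η) :=
          mul_le_mul_of_nonneg_left (hlog x hx1) (by positivity)
      _ = 2 * C * C₁ * ρ ^ k := by
          have h11 : x / x ^ c * x ^ η = ρ ^ k := by
            have h12 : x / x ^ c = x ^ (1 - c) := by
              rw [Real.rpow_sub hx0, Real.rpow_one]
            rw [h12, ← Real.rpow_add hx0, hρ, ← Real.rpow_natCast ((2 : ℝ) ^ (-η)),
              ← Real.rpow_mul (by norm_num), hx, ← Real.rpow_natCast (2 : ℝ) k,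
              ← Real.rpow_mul (by norm_num)]
            congr 1
            rw [hη]
            ring
          rw [← h11]
          ring
  have hmaps : ∀ i ∈ T, j i ∈ T.image j := fun i hi => Finset.mem_image_of_mem j hi
  rw [← Finset.sum_fiberwise_of_maps_to hmaps]
  calc ∑ k ∈ T.image j, ∑ i ∈ T with j i = k, s i * (1 + Real.log (D i)) ^ 3 / D i ^ c
      ≤ ∑ k ∈ T.image j, 2 * C * C₁ * ρ ^ k := Finset.sum_le_sum fun k _ => hfib k
    _ = 2 * C * C₁ * ∑ k ∈ T.image j, ρ ^ k := by rw [Finset.mul_sum]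
    _ ≤ 2 * C * C₁ * ∑' k : ℕ, ρ ^ k := by
        refine mul_le_mul_of_nonneg_left ?_ (by positivity)
        exact hgs.sum_le_tsum _ fun k _ => by positivity

theorem dlim (P : Set ι) (D s w : ι → ℝ) (N : ι → ℝ → ℝ) (C C₁ r c : ℝ) (hc : 1 < c)
    (hD : ∀ i ∈ P, 1 ≤ D i) (hs : ∀ i ∈ P, 0 ≤ s i)
    (hsm : ∀ R : ℝ, 1 ≤ R → ∀ T : Finset ι, (∀ i ∈ T, i ∈ P ∧ D i ≤ R) →
      ∑ i ∈ T, s i ≤ C * R * (1 + Real.log R) ^ r)
    (hN : ∀ i ∈ P, ∀ Y : ℝ, 1 ≤ Y → 0 ≤ N i Y ∧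
      N i Y ≤ C₁ * (s i * (1 + Real.log (D i)) ^ 3) * Y)
    (hw : ∀ i ∈ P, Tendsto (fun Y : ℝ => N i Y / Y) atTop (𝓝 (w i)))
    (T : ℝ → Finset ι) (hT : ∀ X i, i ∈ T X ↔ i ∈ P ∧ D i ^ c ≤ X) :
    ∃ L : ℝ, 0 ≤ L ∧ ((∃ i ∈ P, 0 < w i) → 0 < L) ∧
      Tendsto (fun X : ℝ => (∑ i ∈ T X, N i (X / D i ^ c)) / X) atTop (𝓝 L) := by
  obtain ⟨C', hC'⟩ := dsum P D s C r c hc hD hs hsm
  have hDc : ∀ i ∈ P, 0 < D i ^ c := fun i hi =>
    Real.rpow_pos_of_pos (lt_of_lt_of_le one_pos (hD i hi)) c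
  have hn0 : ∀ i ∈ P, 0 ≤ s i * (1 + Real.log (D i)) ^ 3 := fun i hi =>
    mul_nonneg (hs i hi) (pow_nonneg (by linarith [Real.log_nonneg (hD i hi)]) 3)
  -- the bound
  obtain ⟨b, hb⟩ : ∃ b : ι → ℝ, b = fun i =>
      if i ∈ P then s i * (1 + Real.log (D i)) ^ 3 / D i ^ c else 0 := ⟨_, rfl⟩
  have hb0 : ∀ i, 0 ≤ b i := by
    intro i
    rw [hb]
    by_cases hi : i ∈ P
    · simp only [hi, if_true]
      exact div_nonneg (hn0 i hi) (hDc i hi).le
    · simp only [hi, if_false]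
      exact le_rfl
  have hbs : Summable b := by
    refine summable_of_sum_le (c := C') hb0 ?_
    intro u
    have h1 := hC' (u.filter fun i => i ∈ P) fun i hi => (Finset.mem_filter.1 hi).2
    rw [Finset.sum_filter] at h1
    rw [hb]
    exact h1
  have hbs' : Summable fun i => |C₁| * b i := hbs.mul_left _
  -- the functions
  obtain ⟨f, hf⟩ : ∃ f : ℝ → ι → ℝ, f = fun X i =>
      if i ∈ P ∧ D i ^ c ≤ X then N i (X / D i ^ c) / X else 0 := ⟨_, rfl⟩
  have hfb : ∀ X i, 0 ≤ f X i ∧ f X i ≤ |C₁| * b i := by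
    intro X i
    rw [hf]
    by_cases hi : i ∈ P ∧ D i ^ c ≤ X
    · simp only [hi, and_self, if_true]
      have hd := hDc i hi.1
      have hX : 0 < X := lt_of_lt_of_le hd hi.2
      have hY : 1 ≤ X / D i ^ c := (one_le_div hd).2 hi.2
      obtain ⟨h1, h2⟩ := hN i hi.1 _ hY
      refine ⟨div_nonneg h1 hX.le, ?_⟩
      rw [div_le_iff₀ hX]
      refine h2.trans ?_
      have h3 : b i = s i * (1 + Real.log (D i)) ^ 3 / D i ^ c := by
        rw [hb]
        simp only [hi.1, if_true]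
      rw [h3]
      have h4 : C₁ * (s i * (1 + Real.log (D i)) ^ 3) * (X / D i ^ c) =
          C₁ * (s i * (1 + Real.log (D i)) ^ 3 / D i ^ c * X) := by ring
      have h5 : |C₁| * (s i * (1 + Real.log (D i)) ^ 3 / D i ^ c) * X =
          |C₁| * (s i * (1 + Real.log (D i)) ^ 3 / D i ^ c * X) := by ring
      rw [h4, h5]
      refine mul_le_mul_of_nonneg_right (le_abs_self _) ?_
      exact mul_nonneg (div_nonneg (hn0 i hi.1) hd.le) hX.le
    · simp only [hi, if_false]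
      exact ⟨le_rfl, mul_nonneg (abs_nonneg _) (hb0 i)⟩
  obtain ⟨g, hg⟩ : ∃ g : ι → ℝ, g = fun i => if i ∈ P then w i / D i ^ c else 0 := ⟨_, rfl⟩
  have hfg : ∀ i, Tendsto (fun X => f X i) atTop (𝓝 (g i)) := by
    intro i
    by_cases hi : i ∈ P
    · have hd := hDc i hi
      have h1 : Tendsto (fun X : ℝ => X / D i ^ c) atTop atTop :=
        tendsto_id.atTop_div_const hd
      have h2 := ((hw i hi).comp h1).div_const (D i ^ c)
      have h3 : g i = w i / D i ^ c := by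
        rw [hg]
        simp only [hi, if_true]
      rw [h3]
      refine h2.congr' ?_
      filter_upwards [eventually_ge_atTop (D i ^ c)] with X hX
      have hX0 : 0 < X := lt_of_lt_of_le hd hX
      rw [hf]
      simp only [hi, hX, and_self, if_true, Function.comp]
      rw [div_div, div_mul_cancel₀ _ hd.ne']
    · have h1 : ∀ X, f X i = 0 := by
        intro X
        rw [hf]
        simp only [hi, false_and, if_false]
      have h2 : g i = 0 := by
        rw [hg]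
        simp only [hi, if_false]
      rw [h2]
      simp only [h1]
      exact tendsto_const_nhds
  have hlim : Tendsto (fun X => ∑' i, f X i) atTop (𝓝 (∑' i, g i)) := by
    refine tendsto_tsum_of_dominated_convergence hbs' hfg ?_
    refine Eventually.of_forall fun X i => ?_
    rw [Real.norm_eq_abs, abs_of_nonneg (hfb X i).1]
    exact (hfb X i).2
  have hg0 : ∀ i, 0 ≤ g i := fun i => ge_of_tendsto' (hfg i) fun X => (hfb X i).1
  have hgb : ∀ i, g i ≤ |C₁| * b i := fun i => le_of_tendsto' (hfg i) fun X => (hfb X i).2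
  have hgs : Summable g := Summable.of_nonneg_of_le hg0 hgb hbs'
  refine ⟨∑' i, g i, tsum_nonneg hg0, ?_, ?_⟩
  · rintro ⟨i, hi, hwi⟩
    refine hgs.tsum_pos hg0 i ?_
    rw [hg]
    simp only [hi, if_true]
    exact div_pos hwi (hDc i hi)
  · refine hlim.congr fun X => ?_
    rw [tsum_eq_sum (s := T X)]
    · rw [Finset.sum_div]
      refine Finset.sum_congr rfl fun i hi => ?_
      rw [hf]
      simp only [(hT X i).1 hi, and_self, if_true]
    · intro i hi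
      have h1 : ¬ (i ∈ P ∧ D i ^ c ≤ X) := fun h => hi ((hT X i).2 h)
      rw [hf]
      simp only [h1, if_false]

end H67.AT
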