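import Pool.Agent.H67.AT.Defs
import Pool.Agent.H67.AQ.Ddg
import Pool.Agent.H38.EN.Af3

/-!
# AT (MP_b39724_nt) FBD: uniform bound and limit of one fibre, 120-170 lines. File Pool/Agent/H67/AT/Fbd.lean

Read the proof of `ndb` in H67/AQ/Ndb.lean first: constants `C₀` (FBS), `C₂` (`H38.EN.af3 K`: `∑ q ∈ AF K Y, 3 ^ q.card ≤ C₂ Y (1 + log Y)^2`), `C₅ A₅ δ₅` (LI1), `C₆ A₆ δ₆` (LA3), `C₇ A₇` (`ddg Q S hS2 hS3 hL`: `x.D ≤ C₇ cf ^ A₇` for `x.F = FX χ`). With `s = selg (FX χ)`, `cf = cf Q S χ ≥ 1`: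
* error of the fibre formula: `|Fib - W mq| ≤ C₀ + C₀ (C₀ s) C₅ (C₇ cf ^ A₇) ^ A₅ Y ^ (1 - δ₅)`, `|mq - Am Y| ≤ C₆ cf ^ A₆ Y ^ (1 - δ₆)`, `0 ≤ Am ≤ C₆ (1 + log cf)^3`, `0 ≤ W ≤ C₀`. This gives the limit (fixed `χ`, `Y → ∞`; squeeze).
* uniform bound. `s = 0`: then `Fib.ncard ≤ C₀ * 0 * _ = 0`. `s ≥ 1`: let `δ = min δ₅ δ₆`, `A = max (A₇ A₅) A₆`, `A' = ⌈A / δ⌉₊`. If `Y ≥ cf ^ A'` then `cf ^ A Y ^ (1 - δ) ≤ Y` and `Fib ≤ C s (1 + log cf)^3 Y` from the fibre formula (`1 ≤ s`, `1 ≤ (1 + log cf)^3`, `1 ≤ Y`). If `Y < cf ^ A'` then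
  `log Y ≤ A' log cf` and `Fib ≤ C₀ s C₂ Y (1 + A' log cf)^2 ≤ C₀ C₂ (1 + A')^2 s (1 + log cf)^3 Y`.
-/

set_option autoImplicit false

open scoped NumberField Classical
open IsDedekindDomain H38.ML H63.MA H48.KV H67.AQ Filter Topology
open H48.T3 hiding Ch

noncomputable section

namespace H67.AT

variable {K : IntermediateField ℚ QBar} [NumberField K] {G : Type} [Group G]

/-- the limit from a power saving -/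
private theorem f_lim (f : ℝ → ℝ) (a c0 c1 c2 δ1 δ2 : ℝ) (h1 : 0 < δ1) (h2 : 0 < δ2)
    (h : ∀ Y : ℝ, 1 ≤ Y → |f Y - a * Y| ≤ c0 + c1 * Y ^ (1 - δ1) + c2 * Y ^ (1 - δ2)) :
    Tendsto (fun Y : ℝ => f Y / Y) atTop (𝓝 a) := by
  rw [← tendsto_sub_nhds_zero_iff]
  have hg : Tendsto (fun Y : ℝ => c0 * Y⁻¹ + c1 * Y ^ (-δ1) + c2 * Y ^ (-δ2)) atTop (𝓝 0) := by
    have t0 : Tendsto (fun Y : ℝ => c0 * Y⁻¹) atTop (𝓝 (c0 * 0)) :=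
      tendsto_inv_atTop_zero.const_mul c0
    have t1 : Tendsto (fun Y : ℝ => c1 * Y ^ (-δ1)) atTop (𝓝 (c1 * 0)) :=
      (tendsto_rpow_neg_atTop h1).const_mul c1
    have t2 : Tendsto (fun Y : ℝ => c2 * Y ^ (-δ2)) atTop (𝓝 (c2 * 0)) :=
      (tendsto_rpow_neg_atTop h2).const_mul c2
    have t3 := (t0.add t1).add t2
    simpa using t3
  refine squeeze_zero_norm' ?_ hg
  filter_upwards [eventually_ge_atTop (1 : ℝ)] with Y hY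
  have hY0 : 0 < Y := by linarith
  have e0 : f Y / Y - a = (f Y - a * Y) * Y⁻¹ := by
    field_simp
  have e1 : Y ^ (1 - δ1) * Y⁻¹ = Y ^ (-δ1) := by
    rw [← Real.rpow_neg_one, ← Real.rpow_add hY0]
    congr 1
    ring
  have e2 : Y ^ (1 - δ2) * Y⁻¹ = Y ^ (-δ2) := by
    rw [← Real.rpow_neg_one, ← Real.rpow_add hY0]
    congr 1
    ring
  have hi : 0 ≤ Y⁻¹ := inv_nonneg.2 hY0.le
  rw [Real.norm_eq_abs, e0, abs_mul, abs_of_nonneg hi]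
  calc |f Y - a * Y| * Y⁻¹ ≤ (c0 + c1 * Y ^ (1 - δ1) + c2 * Y ^ (1 - δ2)) * Y⁻¹ :=
        mul_le_mul_of_nonneg_right (h Y hY) hi
    _ = c0 * Y⁻¹ + c1 * (Y ^ (1 - δ1) * Y⁻¹) + c2 * (Y ^ (1 - δ2) * Y⁻¹) := by ring
    _ = _ := by rw [e1, e2]

/-- the uniform bound from the two estimates -/
private theorem f_bd (C₀ C₂ C₆ B5 δ δ₅ δ₆ : ℝ) (A A' a5 a6 : ℕ) (hC₀ : 1 ≤ C₀) (hC₂ : 1 ≤ C₂)
    (hC₆ : 1 ≤ C₆) (hB50 : 0 < B5) (hδ0 : 0 < δ) (hδ5 : δ ≤ δ₅) (hδ6 : δ ≤ δ₆) (hA5 : a5 ≤ A)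
    (hA6 : a6 ≤ A) (hAA : (A : ℝ) ≤ (A' : ℝ) * δ) (N c s Y w am S : ℝ) (hY : 1 ≤ Y) (hc1 : 1 ≤ c)
    (hs1 : 1 ≤ s) (hw : w ≤ C₀) (m1 : 0 ≤ am)
    (m2 : am ≤ C₆ * (1 + Real.log c) ^ 3)
    (hm : |N - w * am * Y| ≤ C₀ + C₀ * (C₀ * s) * (B5 * c ^ a5) * Y ^ (1 - δ₅) +
      C₀ * (C₆ * c ^ a6) * Y ^ (1 - δ₆))
    (f2 : N ≤ C₀ * s * S) (g1 : S ≤ C₂ * Y * (1 + Real.log Y) ^ 2) :
    N ≤ (1 + (C₀ * C₆ + C₀ + C₀ * C₀ * B5 + C₀ * C₆) + C₀ * C₂ * (1 + (A' : ℝ)) ^ 2) *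
      (s * (1 + Real.log c) ^ 3) * Y := by
  have hlc : 0 ≤ Real.log c := Real.log_nonneg hc1
  have hlY : 0 ≤ Real.log Y := Real.log_nonneg hY
  have hY0 : 0 < Y := by linarith
  have hc0 : 0 < c := by linarith
  obtain ⟨L, hL'⟩ : ∃ L : ℝ, L = (1 + Real.log c) ^ 3 := ⟨_, rfl⟩
  have hL1 : 1 ≤ L := by rw [hL']; exact one_le_pow₀ (by linarith)
  rw [← hL'] at m2 ⊢
  obtain ⟨D1, hD1⟩ : ∃ D1 : ℝ, D1 = C₀ * C₆ + C₀ + C₀ * C₀ * B5 + C₀ * C₆ := ⟨_, rfl⟩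
  obtain ⟨D2, hD2⟩ : ∃ D2 : ℝ, D2 = C₀ * C₂ * (1 + (A' : ℝ)) ^ 2 := ⟨_, rfl⟩
  have hD10 : 0 ≤ D1 := by rw [hD1]; positivity
  have hD20 : 0 ≤ D2 := by rw [hD2]; positivity
  rw [← hD1, ← hD2]
  have hsL : 0 ≤ s * L * Y := by positivity
  by_cases hYc : c ^ A' ≤ Y
  · have p1 : c ^ A * Y ^ (1 - δ) ≤ Y := by
      have q1 : c ^ A ≤ Y ^ δ := by
        calc c ^ A = c ^ (A : ℝ) := (Real.rpow_natCast c A).symm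
          _ ≤ c ^ ((A' : ℝ) * δ) := Real.rpow_le_rpow_of_exponent_le hc1 hAA
          _ = (c ^ A') ^ δ := by rw [Real.rpow_mul hc0.le, Real.rpow_natCast]
          _ ≤ Y ^ δ := Real.rpow_le_rpow (pow_nonneg hc0.le _) hYc hδ0.le
      calc c ^ A * Y ^ (1 - δ) ≤ Y ^ δ * Y ^ (1 - δ) :=
            mul_le_mul_of_nonneg_right q1 (Real.rpow_nonneg hY0.le _)
        _ = Y := by
            rw [← Real.rpow_add hY0]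
            have : δ + (1 - δ) = 1 := by ring
            rw [this, Real.rpow_one]
    have p2 : ∀ (a : ℕ) (e : ℝ), a ≤ A → δ ≤ e → c ^ a * Y ^ (1 - e) ≤ Y := by
      intro a e ha he
      refine le_trans ?_ p1
      exact mul_le_mul (pow_le_pow_right₀ hc1 ha)
        (Real.rpow_le_rpow_of_exponent_le hY (by linarith)) (Real.rpow_nonneg hY0.le _)
        (pow_nonneg hc0.le _)
    have p3 := p2 (a5) δ₅ hA5 hδ5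
    have p4 := p2 a6 δ₆ hA6 hδ6
    have p5 : N ≤ w * am * Y + (C₀ + C₀ * (C₀ * s) * (B5 * c ^ (a5)) * Y ^ (1 - δ₅) +
      C₀ * (C₆ * c ^ a6) * Y ^ (1 - δ₆)) := by
      have := (abs_le.1 hm).2
      linarith
    have hYY : Y ≤ s * L * Y := by
      have : 1 ≤ s * L := one_le_mul_of_one_le_of_one_le hs1 hL1
      nlinarith
    have p6 : w * am * Y ≤ C₀ * C₆ * (s * L * Y) := by
      have r1 : w * am ≤ C₀ * (C₆ * L) := mul_le_mul hw m2 m1 (by linarith)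
      have r2 : L ≤ s * L := by nlinarith
      calc w * am * Y ≤ C₀ * (C₆ * L) * Y := mul_le_mul_of_nonneg_right r1 hY0.le
        _ = C₀ * C₆ * (L * Y) := by ring
        _ ≤ C₀ * C₆ * (s * L * Y) :=
            mul_le_mul_of_nonneg_left (mul_le_mul_of_nonneg_right r2 hY0.le) (by positivity)
    have p7 : C₀ ≤ C₀ * (s * L * Y) := by
      have : 1 ≤ s * L * Y := hY.trans hYY
      nlinarith
    have p8 : C₀ * (C₀ * s) * (B5 * c ^ (a5)) * Y ^ (1 - δ₅) ≤ C₀ * C₀ * B5 * (s * L * Y) := by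
      have r3 : s * Y ≤ s * L * Y := by
        have : s ≤ s * L := by nlinarith
        exact mul_le_mul_of_nonneg_right this hY0.le
      calc C₀ * (C₀ * s) * (B5 * c ^ (a5)) * Y ^ (1 - δ₅) =
            C₀ * C₀ * B5 * (s * (c ^ (a5) * Y ^ (1 - δ₅))) := by ring
        _ ≤ C₀ * C₀ * B5 * (s * Y) :=
            mul_le_mul_of_nonneg_left (mul_le_mul_of_nonneg_left p3 (by linarith)) (by positivity)
        _ ≤ _ := mul_le_mul_of_nonneg_left r3 (by positivity)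
    have p9 : C₀ * (C₆ * c ^ a6) * Y ^ (1 - δ₆) ≤ C₀ * C₆ * (s * L * Y) := by
      calc C₀ * (C₆ * c ^ a6) * Y ^ (1 - δ₆) = C₀ * C₆ * (c ^ a6 * Y ^ (1 - δ₆)) := by ring
        _ ≤ C₀ * C₆ * (s * L * Y) :=
            mul_le_mul_of_nonneg_left (p4.trans hYY) (by positivity)
    calc N ≤ D1 * (s * L * Y) := by rw [hD1]; linarith
      _ ≤ (1 + D1 + D2) * (s * L * Y) := mul_le_mul_of_nonneg_right (by linarith) hsL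
      _ = (1 + D1 + D2) * (s * L) * Y := by ring
  · rw [not_le] at hYc
    have q1 : Real.log Y ≤ A' * Real.log c := by
      rw [← Real.log_pow]
      exact Real.log_le_log hY0 hYc.le
    have hA0 : (0 : ℝ) ≤ (A' : ℝ) := Nat.cast_nonneg _
    have q2 : 1 + Real.log Y ≤ (1 + (A' : ℝ)) * (1 + Real.log c) := by nlinarith
    have q3 : (1 + Real.log Y) ^ 2 ≤ (1 + (A' : ℝ)) ^ 2 * L := by
      calc (1 + Real.log Y) ^ 2 ≤ ((1 + (A' : ℝ)) * (1 + Real.log c)) ^ 2 :=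
            pow_le_pow_left₀ (by linarith) q2 2
        _ = (1 + (A' : ℝ)) ^ 2 * (1 + Real.log c) ^ 2 := by ring
        _ ≤ (1 + (A' : ℝ)) ^ 2 * L := by
            refine mul_le_mul_of_nonneg_left ?_ (sq_nonneg _)
            rw [hL']
            exact pow_le_pow_right₀ (by linarith) (by norm_num)
    calc N ≤ C₀ * s * S := f2
      _ ≤ C₀ * s * (C₂ * Y * (1 + Real.log Y) ^ 2) :=
          mul_le_mul_of_nonneg_left g1 (by positivity)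
      _ = C₀ * C₂ * s * Y * (1 + Real.log Y) ^ 2 := by ring
      _ ≤ C₀ * C₂ * s * Y * ((1 + (A' : ℝ)) ^ 2 * L) :=
          mul_le_mul_of_nonneg_left q3 (by positivity)
      _ = D2 * (s * L * Y) := by rw [hD2]; ring
      _ ≤ (1 + D1 + D2) * (s * L * Y) := mul_le_mul_of_nonneg_right (by linarith) hsL
      _ = (1 + D1 + D2) * (s * L) * Y := by ring

theorem fbd (k : KV G) {S : Finset (Pl K)} {Q : DP K QBar} (h1 : H57.LI.LI1 K QBar (mS S))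
    (hfb : FBS k Q S) (hL : LF3 S Q) (hS2 : ∀ v : Pl K, Above 2 v → v ∈ S)
    (hS3 : ∀ v : Pl K, Above 3 v → v ∈ S)
    (Am : (Gal(QBar/K) →* Multiplicative (ZMod 3)) → ℝ) (h3 : LA3 S Q Am)
    (ds : (Gal(QBar/K) →* G) → ℕ) (hds : LocInv Q S ds) :
    (∃ Df : Finset ℕ, ∀ φ : Gal(QBar/K) →* G, FT φ → Function.Surjective φ → ds φ ∈ Df) ∧
    ∃ (C : ℝ) (W : ℕ → (Gal(QBar/K) →* Multiplicative (ZMod 3)) → ℝ), 1 ≤ C ∧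
      (∀ d χ, 0 ≤ W d χ) ∧ (∀ χ ∈ H38.MT.Ch K, ∃ d, 0 < W d χ) ∧
      ∀ d, ∀ χ ∈ H38.MT.Ch K,
        (∀ Y : ℝ, 1 ≤ Y → (Fib k Q S ds χ d Y).Finite ∧
          ((Fib k Q S ds χ d Y).ncard : ℝ) ≤
            C * (selg (FX χ) * (1 + Real.log (H38.MT.cf Q S χ)) ^ 3) * Y) ∧
        Tendsto (fun Y : ℝ => ((Fib k Q S ds χ d Y).ncard : ℝ) / Y) atTop (𝓝 (W d χ * Am χ)) := by
  obtain ⟨hDf, C₀, W, hC₀, hWb, -, hWp, hfm⟩ := hfb ds hds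
  refine ⟨hDf, ?_⟩
  obtain ⟨C₂, hC₂, ha3⟩ := H38.EN.af3 K
  obtain ⟨C₅, A₅, δ₅, hC₅, hδ₅0, hδ₅1, hli⟩ := h1
  obtain ⟨C₆, A₆, δ₆, hC₆, hδ₆0, hδ₆1, hla⟩ := h3
  obtain ⟨C₇, A₇, hC₇, hdd⟩ := ddg Q S hS2 hS3 hL
  have hcf1 : ∀ χ, 1 ≤ H38.MT.cf Q S χ := fun χ => one_le_nr _
  obtain ⟨δ, hδ⟩ : ∃ δ : ℝ, δ = min δ₅ δ₆ := ⟨_, rfl⟩
  have hδ0 : 0 < δ := by rw [hδ]; exact lt_min hδ₅0 hδ₆0
  have hδ5 : δ ≤ δ₅ := by rw [hδ]; exact min_le_left _ _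
  have hδ6 : δ ≤ δ₆ := by rw [hδ]; exact min_le_right _ _
  obtain ⟨A, hA⟩ : ∃ A : ℕ, A = max (A₇ * A₅) A₆ := ⟨_, rfl⟩
  have hA5 : A₇ * A₅ ≤ A := by rw [hA]; exact le_max_left _ _
  have hA6 : A₆ ≤ A := by rw [hA]; exact le_max_right _ _
  obtain ⟨A', hA'⟩ : ∃ A' : ℕ, A' = ⌈(A : ℝ) / δ⌉₊ := ⟨_, rfl⟩
  have hAA : (A : ℝ) ≤ (A' : ℝ) * δ := by
    have h1 : (A : ℝ) / δ ≤ (A' : ℝ) := by rw [hA']; exact Nat.le_ceil _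
    rwa [div_le_iff₀ hδ0] at h1
  obtain ⟨B5, hB5⟩ : ∃ B5 : ℝ, B5 = C₅ * C₇ ^ A₅ := ⟨_, rfl⟩
  have hB50 : 0 < B5 := by rw [hB5]; positivity
  -- the main estimate
  have hmain : ∀ d, ∀ χ ∈ H38.MT.Ch K, ∀ Y : ℝ, 1 ≤ Y →
      |((Fib k Q S ds χ d Y).ncard : ℝ) - W d χ * Am χ * Y| ≤
        C₀ + C₀ * (C₀ * selg (FX χ)) * (B5 * H38.MT.cf Q S χ ^ (A₇ * A₅)) * Y ^ (1 - δ₅) +
          C₀ * (C₆ * H38.MT.cf Q S χ ^ A₆) * Y ^ (1 - δ₆) := by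
    intro d χ hχ Y hY
    obtain ⟨Z, hZF, hZc, hZY⟩ := hfm d χ hχ
    obtain ⟨-, f1, -⟩ := hZY Y hY
    obtain ⟨m1, m2, m3⟩ := hla χ hχ
    have m4 := m3 Y hY
    have hY0 : 0 ≤ Y ^ (1 - δ₅) := Real.rpow_nonneg (by linarith) _
    have hc0 : 0 ≤ H38.MT.cf Q S χ := by linarith [hcf1 χ]
    have s1 : ∀ x ∈ Z, |∑ q ∈ IN K Y, x.lq q| ≤
        (B5 * H38.MT.cf Q S χ ^ (A₇ * A₅)) * Y ^ (1 - δ₅) := by
      intro x hx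
      have g1 := hli x Y hY
      have g2 : x.D ≤ C₇ * H38.MT.cf Q S χ ^ A₇ := hdd χ hχ x.F x.nf (hZF x hx)
      have g3 : (0 : ℝ) ≤ x.D := abs_nonneg _
      have g4 : x.D ^ A₅ ≤ C₇ ^ A₅ * H38.MT.cf Q S χ ^ (A₇ * A₅) := by
        calc x.D ^ A₅ ≤ (C₇ * H38.MT.cf Q S χ ^ A₇) ^ A₅ := pow_le_pow_left₀ g3 g2 A₅
          _ = C₇ ^ A₅ * H38.MT.cf Q S χ ^ (A₇ * A₅) := by rw [mul_pow, ← pow_mul]
      calc |∑ q ∈ IN K Y, x.lq q| ≤ C₅ * x.D ^ A₅ * Y ^ (1 - δ₅) := g1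
        _ ≤ C₅ * (C₇ ^ A₅ * H38.MT.cf Q S χ ^ (A₇ * A₅)) * Y ^ (1 - δ₅) :=
            mul_le_mul_of_nonneg_right (mul_le_mul_of_nonneg_left g4 (by linarith)) hY0
        _ = _ := by rw [hB5]; ring
    have hE0 : 0 ≤ (B5 * H38.MT.cf Q S χ ^ (A₇ * A₅)) * Y ^ (1 - δ₅) :=
      mul_nonneg (mul_nonneg hB50.le (pow_nonneg hc0 _)) hY0
    have s2 : ∑ x ∈ Z, |∑ q ∈ IN K Y, x.lq q| ≤
        (C₀ * selg (FX χ)) * ((B5 * H38.MT.cf Q S χ ^ (A₇ * A₅)) * Y ^ (1 - δ₅)) := by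
      calc ∑ x ∈ Z, |∑ q ∈ IN K Y, x.lq q| ≤
            ∑ _x ∈ Z, (B5 * H38.MT.cf Q S χ ^ (A₇ * A₅)) * Y ^ (1 - δ₅) := Finset.sum_le_sum s1
        _ = (Z.card : ℝ) * ((B5 * H38.MT.cf Q S χ ^ (A₇ * A₅)) * Y ^ (1 - δ₅)) := by
            rw [Finset.sum_const, nsmul_eq_mul]
        _ ≤ _ := mul_le_mul_of_nonneg_right hZc hE0
    have s3 : ((Fib k Q S ds χ d Y).ncard : ℝ) - W d χ * Am χ * Y =
        (((Fib k Q S ds χ d Y).ncard : ℝ) - W d χ * H38.MT.mq Q S χ Y) +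
          W d χ * (H38.MT.mq Q S χ Y - Am χ * Y) := by ring
    have s4 : |W d χ * (H38.MT.mq Q S χ Y - Am χ * Y)| ≤
        C₀ * (C₆ * H38.MT.cf Q S χ ^ A₆ * Y ^ (1 - δ₆)) := by
      rw [abs_mul, abs_of_nonneg (hWb d χ).1]
      exact mul_le_mul (hWb d χ).2 m4 (abs_nonneg _) (by linarith)
    have s5 : C₀ * ∑ x ∈ Z, |∑ q ∈ IN K Y, x.lq q| ≤
        C₀ * ((C₀ * selg (FX χ)) * ((B5 * H38.MT.cf Q S χ ^ (A₇ * A₅)) * Y ^ (1 - δ₅))) :=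
      mul_le_mul_of_nonneg_left s2 (by linarith)
    rw [s3]
    refine (abs_add_le _ _).trans ?_
    calc _ ≤ (C₀ + C₀ * ((C₀ * selg (FX χ)) *
          ((B5 * H38.MT.cf Q S χ ^ (A₇ * A₅)) * Y ^ (1 - δ₅)))) +
          C₀ * (C₆ * H38.MT.cf Q S χ ^ A₆ * Y ^ (1 - δ₆)) := by
          refine add_le_add (f1.trans ?_) s4
          linarith
      _ = _ := by ring
  obtain ⟨D1, hD1⟩ : ∃ D1 : ℝ, D1 = C₀ * C₆ + C₀ + C₀ * C₀ * B5 + C₀ * C₆ := ⟨_, rfl⟩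
  obtain ⟨D2, hD2⟩ : ∃ D2 : ℝ, D2 = C₀ * C₂ * (1 + (A' : ℝ)) ^ 2 := ⟨_, rfl⟩
  have hD10 : 0 ≤ D1 := by rw [hD1]; positivity
  have hD20 : 0 ≤ D2 := by rw [hD2]; positivity
  refine ⟨1 + D1 + D2, W, by linarith, fun d χ => (hWb d χ).1, hWp, fun d χ hχ => ⟨fun Y hY => ?_, ?_⟩⟩
  · obtain ⟨Z, hZF, hZc, hZY⟩ := hfm d χ hχ
    obtain ⟨f0, -, f2⟩ := hZY Y hY
    refine ⟨f0, ?_⟩
    have hc1 := hcf1 χ
    obtain ⟨c, hc⟩ : ∃ c : ℝ, c = H38.MT.cf Q S χ := ⟨_, rfl⟩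
    have hm := hmain d χ hχ Y hY
    obtain ⟨m1, m2, -⟩ := hla χ hχ
    obtain ⟨N, hN⟩ : ∃ N : ℝ, N = ((Fib k Q S ds χ d Y).ncard : ℝ) := ⟨_, rfl⟩
    rw [← hN] at hm f2 ⊢
    rw [← hc] at hc1 hm m2 ⊢
    have g1 := ha3 Y hY
    rcases Nat.eq_zero_or_pos (selg (FX χ)) with hs | hs
    · rw [hs] at f2 ⊢
      rw [Nat.cast_zero, mul_zero, zero_mul] at f2
      rw [Nat.cast_zero, zero_mul, mul_zero, zero_mul]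
      exact f2
    · have hs1 : (1 : ℝ) ≤ (selg (FX χ) : ℝ) := by exact_mod_cast hs
      obtain ⟨s, hs'⟩ : ∃ s : ℝ, s = (selg (FX χ) : ℝ) := ⟨_, rfl⟩
      rw [← hs'] at f2 hm hs1 ⊢
      rw [hD1, hD2]
      exact f_bd C₀ C₂ C₆ B5 δ δ₅ δ₆ A A' (A₇ * A₅) A₆ hC₀ hC₂ hC₆ hB50 hδ0 hδ5 hδ6 hA5 hA6 hAA N c s Y
        (W d χ) (Am χ) _ hY hc1 hs1 (hWb d χ).2 m1 m2 hm f2 g1
  · exact f_lim _ _ _ _ _ δ₅ δ₆ hδ₅0 hδ₆0 (fun Y hY => hmain d χ hχ Y hY)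

end H67.AT
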