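import Pool.Agent.H67.AQ.Defs
import Pool.Agent.H48.AQ.Fs
import Pool.Agent.H48.KV.LimC

/-!
# AT (MP_b39724_nt) POS: the mean value `Am χ` is positive for every `χ`, 100-150 lines. File Pool/Agent/H67/AT/Pos.lean

`F` = the field of `χ` (`c : Cub K` with `c.F = FX χ`, `cub_ex`), `t = tp c.τ`. `mq_adm` (used at the end of H48/AQ/Fs.lean): `mq Q S χ Y` = the number of the `f ∈ AF F Y` with `AdmC c S f`. Suppose `Am χ ≤ 0`, so `Am χ = 0` and `mq Y ≤ C Y ^ (1 - δ)` (C depends on `χ`).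
* `#AF F y ≥ c₀ y` for large `y`, `c₀ > 0` (squarefree products of primes; search the library: the lower bound for `AF`, e.g. `af_low`, `un_lim`, `mert_low`, H63/MA, H38/AS; or from the number of ideals, Mathlib `NumberField.Ideal.tendsto_norm_le_div_atTop`, by `#ideals ≤ ∑_𝔟 #AF (y / N(𝔟)^2)`).
* Let `T ≥ 1` be large (larger than all `nm P`, `P` over `S`), `W` the finite set of the primes of `F` with `nm P ≤ T`. Every `m ∈ AF F y` is `s ∪ m'` with `s = m ∩ W`, `m' = m \ W ∈ AF F (y / nr s)`. For given `s`: the `m'` which are not admissible contain a `P` with `nm P > T` and (`nm P` not prime or (`t P ≠ P` and (`t P ∈ m'` or `t (t P) ∈ m'`))),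
  except that `t P = P` is possible for the finitely many primes `P` which are ramified over `K` (take `T` larger than their norms) or if `nm P` is not prime; number `≤ C₁ T ^ (-1/4) y / nr s` by `lim_tail` (H48/KV/LimA.lean). So `c₀ y ≤ ∑_{s ⊆ W} (mq (y / nr s) + C₁ T ^ (-1/4) y / nr s)`, and `∑_{s ⊆ W} 1 / nr s ≤ C₂ (log T)^3` (`lim_ws`, LimC.lean).
* Choose `T` with `C₁ C₂ T ^ (-1/4) (log T)^3 < c₀ / 2`, then `y → ∞`: the sum of the `mq (y / nr s) ≤ C y ^ (1 - δ)` over the finitely many `s` is `< c₀ y / 2`. Contradiction. (`lim_dec`, LimB.lean, is the decomposition; `AdmC` and `Adm` differ only in `S`.)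
-/

set_option autoImplicit false

open scoped NumberField Classical
open IsDedekindDomain H38.ML H63.MA H48.KV H67.AQ Filter Topology
open H48.T3 hiding Ch

noncomputable section

namespace H67.AT

variable {K : IntermediateField ℚ QBar} [NumberField K]

/-- a lower bound for the number of the finite sets of primes -/
private theorem pos_low (F : Type) [Field F] [NumberField F] : ∃ c : ℝ, 0 < c ∧ ∃ t₀ : ℝ,
    ∀ t : ℝ, t₀ ≤ t → c * t ≤ ((AF F t).card : ℝ) := by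
  obtain ⟨c, hc, X₀, hl⟩ := count_good (K := F) (b := 1) (F := fun _ => F) one_pos ∅
    Set.finite_empty
  refine ⟨c, hc, X₀, fun t ht => ?_⟩
  obtain ⟨Ts, hTs, hcard⟩ := hl t ht
  rw [Nat.sub_self, pow_zero, mul_one] at hcard
  refine hcard.trans ?_
  have hgood : ∀ I ∈ Ts, ∃ s : Finset (Pl F), H57.LI.idl s = I 0 := by
    intro I hI
    obtain ⟨hG, -⟩ := hTs I hI
    refine H57.LI.idl_surj (I 0) (hG.ne 0) ?_
    intro x hx
    by_contra hu
    have hx1 : x ≠ ⊤ := fun h => hu (Ideal.isUnit_iff.2 h)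
    obtain ⟨V, hV, hxV⟩ := Ideal.exists_le_maximal x hx1
    refine hG.sq 0 V hV.isPrime ?_
    rw [pow_two]
    exact (mul_dvd_mul (Ideal.dvd_iff_le.2 hxV) (Ideal.dvd_iff_le.2 hxV)).trans hx
  choose! f hf using hgood
  have h1 : Ts.card ≤ (AF F t).card := by
    apply Finset.card_le_card_of_injOn f
    · intro I hI
      rw [Finset.mem_coe, mem_AF]
      have h3 := (hTs I hI).2
      have h4 : nrm I = Ideal.absNorm (I 0) := by
        unfold nrm
        rw [Fin.prod_univ_one]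
      rw [h4, ← hf I hI, H57.LI.idl_norm] at h3
      exact h3
    · intro I hI I' hI' h
      have h2 := hf I hI
      have h3 := hf I' hI'
      have h4 : f I = f I' := h
      have h5 : I 0 = I' 0 := by rw [← h2, ← h3, h4]
      funext i
      have hi : i = 0 := Subsingleton.elim _ _
      rw [hi]
      exact h5
  exact_mod_cast h1

/-- decomposition at a finite set `W` -/
private theorem pos_dec {F : Type} [Field F] [NumberField F] (W : Finset (Pl F)) (y : ℝ) :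
    (AF F y).card ≤ ∑ s ∈ W.powerset, ((AF F (y / nr s)).filter fun m => Disjoint m W).card := by
  rw [← Finset.card_sigma]
  apply Finset.card_le_card_of_injOn
    (fun m => (⟨m ∩ W, m \ W⟩ : (_ : Finset (Pl F)) × Finset (Pl F)))
  · intro m hm
    rw [Finset.mem_coe, mem_AF] at hm
    rw [Finset.mem_coe, Finset.mem_sigma, Finset.mem_powerset, Finset.mem_filter, mem_AF]
    refine ⟨Finset.inter_subset_right, ?_, Finset.sdiff_disjoint⟩
    show nr (m \ W) ≤ y / nr (m ∩ W)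
    have h1 : 0 < nr (m ∩ W) := lt_of_lt_of_le one_pos (one_le_nr _)
    rw [le_div_iff₀ h1, ← nr_union (Finset.disjoint_of_subset_right Finset.inter_subset_right
      Finset.sdiff_disjoint), Finset.sdiff_union_inter]
    exact hm
  · intro m _ m' _ h
    have h1 : m ∩ W = m' ∩ W := congrArg Sigma.fst h
    have h2 : m \ W = m' \ W := by
      have h3 : (⟨m ∩ W, m \ W⟩ : (_ : Finset (Pl F)) × Finset (Pl F)) = ⟨m' ∩ W, m' \ W⟩ := h
      exact eq_of_heq (Sigma.mk.inj_iff.1 h3).2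
    rw [← Finset.sdiff_union_inter m W, h1, h2, Finset.sdiff_union_inter]

/-- an integer which is moved by `τ` -/
private theorem pos_mov (c : Cub K) : ∃ θ : 𝓞 c.F, NumberField.RingOfIntegers.mapRingEquiv
    (c.τ.symm : c.F ≃ₐ[K] c.F).toRingEquiv θ ≠ θ := by
  by_contra hcon
  push Not at hcon
  apply c.τ1
  have h0 : ∀ θ : 𝓞 c.F, c.τ (θ : c.F) = θ := by
    intro θ
    have h1 := congrArg (fun z : 𝓞 c.F => c.τ (z : c.F)) (hcon θ)
    have h2 : c.τ ((NumberField.RingOfIntegers.mapRingEquiv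
      (c.τ.symm : c.F ≃ₐ[K] c.F).toRingEquiv θ : 𝓞 c.F) : c.F) = θ := c.τ.apply_symm_apply _
    exact h1.symm.trans h2
  ext x
  obtain ⟨a, b, hb, rfl⟩ := IsFractionRing.div_surjective (A := 𝓞 c.F) x
  rw [map_div₀]
  have h1 : c.τ (algebraMap (𝓞 c.F) c.F a) = algebraMap (𝓞 c.F) c.F a := h0 a
  have h2 : c.τ (algebraMap (𝓞 c.F) c.F b) = algebraMap (𝓞 c.F) c.F b := h0 b
  rw [h1, h2]
  rfl

/-- modulo a prime of prime norm every integer is rational -/
private theorem pos_rat {F : Type} [Field F] [NumberField F] (P : Pl F) (hP : (nm P).Prime)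
    (θ : 𝓞 F) : ∃ n : ℤ, θ - (n : 𝓞 F) ∈ P.asIdeal := by
  have hfact : Fact (nm P).Prime := ⟨hP⟩
  have h1 : Nat.card (𝓞 F ⧸ P.asIdeal) = nm P := by
    unfold nm
    rw [Ideal.absNorm_apply, Submodule.cardQuot_apply]
  have h2 : (1 : 𝓞 F ⧸ P.asIdeal) ≠ 0 := by
    have : Nontrivial (𝓞 F ⧸ P.asIdeal) := Ideal.Quotient.nontrivial_iff.2 P.isPrime.ne_top
    exact one_ne_zero
  have h3 := zmultiples_eq_top_of_prime_card h1 h2
  have h4 : Ideal.Quotient.mk P.asIdeal θ ∈ AddSubgroup.zmultiples (1 : 𝓞 F ⧸ P.asIdeal) := by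
    rw [h3]
    exact AddSubgroup.mem_top _
  obtain ⟨n, hn⟩ := AddSubgroup.mem_zmultiples_iff.1 h4
  refine ⟨n, ?_⟩
  rw [← Ideal.Quotient.eq, ← hn, zsmul_one, map_intCast]

/-- all primes of large norm are good -/
private theorem pos_bad (c : Cub K) (S : Finset (Pl K)) : ∃ T₁ : ℝ, ∀ P : Pl c.F,
    T₁ < (nm P : ℝ) → ¬ OvS c S P ∧ ((nm P).Prime → tp c.τ P ≠ P) := by
  obtain ⟨θ, hθ⟩ := pos_mov c
  obtain ⟨TF, hTF, -⟩ := tov_card c S
  obtain ⟨d, hd⟩ : ∃ d : 𝓞 c.F, d = NumberField.RingOfIntegers.mapRingEquiv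
    (c.τ.symm : c.F ≃ₐ[K] c.F).toRingEquiv θ - θ := ⟨_, rfl⟩
  have hd0 : d ≠ 0 := by
    rw [hd]
    exact sub_ne_zero.2 hθ
  have hspan : Ideal.span {d} ≠ (0 : Ideal (𝓞 c.F)) := by
    rw [Ne, Ideal.zero_eq_bot, Ideal.span_singleton_eq_bot]
    exact hd0
  obtain ⟨B, hB⟩ : ∃ B : Finset (Pl c.F), B = TF ∪ (Ideal.finite_factors hspan).toFinset :=
    ⟨_, rfl⟩
  refine ⟨∑ P ∈ B, (nm P : ℝ), fun P hP => ?_⟩
  have hPB : P ∉ B := by
    intro h
    have h1 : (nm P : ℝ) ≤ ∑ P ∈ B, (nm P : ℝ) :=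
      Finset.single_le_sum (f := fun P : Pl c.F => (nm P : ℝ)) (fun _ _ => Nat.cast_nonneg _) h
    linarith
  rw [hB, Finset.mem_union, Set.Finite.mem_toFinset, not_or] at hPB
  refine ⟨fun h => hPB.1 ((hTF P).2 h), fun hpr hfix => hPB.2 ?_⟩
  rw [Set.mem_ofPred_eq, Ideal.dvd_span_singleton]
  obtain ⟨n, hn⟩ := pos_rat P hpr θ
  have h1 : θ - (n : 𝓞 c.F) ∈ (tp c.τ P).asIdeal := by
    rw [hfix]
    exact hn
  rw [tp_mem, map_sub, map_intCast] at h1
  have h2 := P.asIdeal.sub_mem h1 hn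
  rw [sub_sub_sub_cancel_right, ← hd] at h2
  exact h2

private theorem pos_T (A T₁ ε : ℝ) (hε : 0 < ε) :
    ∃ T : ℝ, 3 ≤ T ∧ T₁ ≤ T ∧ A * T ^ (-(1 / 4) : ℝ) * Real.log T ^ (3 : ℝ) ≤ ε := by
  have h1 : Tendsto (fun T : ℝ => Real.log T ^ (3 : ℝ) / T ^ (1 / 4 : ℝ)) atTop (𝓝 0) :=
    (isLittleO_log_rpow_rpow_atTop 3 (by norm_num : (0 : ℝ) < 1 / 4)).tendsto_div_nhds_zero
  have h2 : Tendsto (fun T : ℝ => A * (Real.log T ^ (3 : ℝ) / T ^ (1 / 4 : ℝ))) atTop
      (𝓝 (A * 0)) := h1.const_mul A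
  rw [mul_zero] at h2
  have h3 := ((h2.eventually (gt_mem_nhds hε)).and (eventually_ge_atTop (3 : ℝ))).and
    (eventually_ge_atTop T₁)
  obtain ⟨T, ⟨hT1, hT2⟩, hT3⟩ := h3.exists
  refine ⟨T, hT2, hT3, ?_⟩
  have hT0 : 0 < T := by linarith
  have e1 : A * T ^ (-(1 / 4) : ℝ) * Real.log T ^ (3 : ℝ) =
      A * (Real.log T ^ (3 : ℝ) / T ^ (1 / 4 : ℝ)) := by
    rw [Real.rpow_neg hT0.le]
    ring
  rw [e1]
  exact hT1.le

theorem am_pos {S : Finset (Pl K)} {Q : DP K QBar}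
    (Am : (Gal(QBar/K) →* Multiplicative (ZMod 3)) → ℝ) (h3 : LA3 S Q Am)
    (χ : Gal(QBar/K) →* Multiplicative (ZMod 3)) (hχ : χ ∈ H38.MT.Ch K) : 0 < Am χ := by
  by_contra hcon
  obtain ⟨C, A, δ, hC, hδ, hδ1, h⟩ := h3
  obtain ⟨hA0, -, hY⟩ := h χ hχ
  have hA : Am χ = 0 := le_antisymm (not_lt.1 hcon) hA0
  obtain ⟨M, hM⟩ : ∃ M : ℝ, M = C * H38.MT.cf Q S χ ^ A := ⟨_, rfl⟩
  have hmq : ∀ Y : ℝ, 1 ≤ Y → H38.MT.mq Q S χ Y ≤ M * Y ^ (1 - δ) := by
    intro Y h1
    have h2 := hY Y h1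
    rw [hA, zero_mul, sub_zero, ← hM] at h2
    exact (le_abs_self _).trans h2
  have hM0 : 0 ≤ M := by
    have h2 := hY 1 le_rfl
    rw [← hM, Real.one_rpow] at h2
    have h4 := (abs_nonneg _).trans h2
    rwa [mul_one] at h4
  obtain ⟨c, hc⟩ := cub_ex χ hχ
  obtain ⟨c₀, hc₀, t₀, hlow⟩ := pos_low c.F
  obtain ⟨T₁, hT₁⟩ := pos_bad c S
  obtain ⟨C₁, hC₁, htail⟩ := lim_tail c.F (tp c.τ) (tp_nm c.τ)
  obtain ⟨C₂, hC₂, hws⟩ := lim_ws c.F
  obtain ⟨T, hT3, hTT, hTε⟩ := pos_T (C₁ * C₂) T₁ (c₀ / 2) (by positivity)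
  have hT1 : 1 ≤ T := by linarith
  obtain ⟨W, hW⟩ : ∃ W : Finset (Pl c.F), W = (acntb_fin c.F T).toFinset := ⟨_, rfl⟩
  have hWm : ∀ v, v ∈ W ↔ (nm v : ℝ) ≤ T := by
    intro v
    rw [hW, Set.Finite.mem_toFinset]
    rfl
  have hone : ∀ y : ℝ, 0 ≤ y → (((AF c.F y).filter fun m => Disjoint m W).card : ℝ) ≤
      H38.MT.mq Q S χ y + C₁ * T ^ (-(1 / 4) : ℝ) * y := by
    intro y hy
    rw [← mq_adm χ hχ c hc Q S y]
    refine le_trans ?_ (add_le_add le_rfl (htail T y hT1 hy))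
    rw [← Nat.cast_add, Nat.cast_le]
    refine le_trans (Finset.card_le_card ?_) (Finset.card_union_le _ _)
    intro m hm
    rw [Finset.mem_filter] at hm
    rw [Finset.mem_union, Finset.mem_filter, Finset.mem_filter]
    by_cases hadm : AdmC c S m
    · exact Or.inl ⟨hm.1, hadm⟩
    · right
      refine ⟨hm.1, ?_⟩
      unfold AdmC at hadm
      push Not at hadm
      obtain ⟨P, hP, hPa⟩ := hadm
      have hPT : T < (nm P : ℝ) := by
        refine lt_of_not_ge fun h1 => ?_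
        exact Finset.disjoint_left.1 hm.2 hP ((hWm P).2 h1)
      obtain ⟨h1, h2⟩ := hT₁ P (lt_of_le_of_lt hTT hPT)
      refine ⟨P, hP, hPT, ?_⟩
      by_cases hpr : (nm P).Prime
      · have h4 := h2 hpr
        right
        by_cases h5 : tp c.τ P ∈ m
        · exact Or.inl ⟨h4, h5⟩
        · right
          refine ⟨?_, hPa h1 h4 h5⟩
          intro h6
          apply h4
          have h7 := cb_pcube c P
          rw [h6] at h7
          exact h7
      · exact Or.inl hpr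
  obtain ⟨N, hN⟩ : ∃ N : ℝ, N = (W.powerset.card : ℝ) * M := ⟨_, rfl⟩
  have key : ∀ y : ℝ, t₀ ≤ y → nr W ≤ y → c₀ / 2 * y ^ δ ≤ N := by
    intro y hy1 hy2
    have hy3 : 1 ≤ y := (one_le_nr W).trans hy2
    have hy0 : 0 < y := by linarith
    have e1 : c₀ * y ≤ ∑ s ∈ W.powerset, (M * y ^ (1 - δ) +
        C₁ * T ^ (-(1 / 4) : ℝ) * y * (nr s)⁻¹) := by
      refine (hlow y hy1).trans ?_
      have e2 : ((AF c.F y).card : ℝ) ≤ ((∑ s ∈ W.powerset,
        ((AF c.F (y / nr s)).filter fun m => Disjoint m W).card : ℕ) : ℝ) := by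
        exact_mod_cast pos_dec W y
      refine e2.trans ?_
      push_cast
      refine Finset.sum_le_sum fun s hs => ?_
      rw [Finset.mem_powerset] at hs
      have hs1 := one_le_nr s
      have hs0 : 0 < nr s := by linarith
      have hs2 : 1 ≤ y / nr s := by
        rw [le_div_iff₀ hs0, one_mul]
        exact (nr_mono hs).trans hy2
      refine (hone (y / nr s) (by positivity)).trans ?_
      refine add_le_add ((hmq _ hs2).trans ?_) (le_of_eq ?_)
      · refine mul_le_mul_of_nonneg_left ?_ hM0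
        refine Real.rpow_le_rpow (by positivity) ?_ (by linarith)
        exact div_le_self hy0.le hs1
      · rw [div_eq_mul_inv]
        ring
    rw [Finset.sum_add_distrib, Finset.sum_const, nsmul_eq_mul, ← Finset.mul_sum] at e1
    have e3 : C₁ * T ^ (-(1 / 4) : ℝ) * y * ∑ s ∈ W.powerset, (nr s)⁻¹ ≤ c₀ / 2 * y := by
      have hTn : 0 ≤ T ^ (-(1 / 4) : ℝ) := Real.rpow_nonneg (by linarith) _
      have e4 := hws T hT3 W fun P hP => (hWm P).1 hP
      calc C₁ * T ^ (-(1 / 4) : ℝ) * y * ∑ s ∈ W.powerset, (nr s)⁻¹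
          ≤ C₁ * T ^ (-(1 / 4) : ℝ) * y * (C₂ * Real.log T ^ (3 : ℝ)) :=
            mul_le_mul_of_nonneg_left e4 (by positivity)
        _ = (C₁ * C₂ * T ^ (-(1 / 4) : ℝ) * Real.log T ^ (3 : ℝ)) * y := by ring
        _ ≤ c₀ / 2 * y := mul_le_mul_of_nonneg_right hTε hy0.le
    have e5 : c₀ / 2 * y ≤ N * y ^ (1 - δ) := by
      rw [hN, mul_assoc]
      linarith
    have e6 : y = y ^ δ * y ^ (1 - δ) := by
      rw [← Real.rpow_add hy0, add_sub_cancel, Real.rpow_one]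
    have e7 : 0 < y ^ (1 - δ) := Real.rpow_pos_of_pos hy0 _
    have e8 : c₀ / 2 * y ^ δ * y ^ (1 - δ) ≤ N * y ^ (1 - δ) := by
      rw [mul_assoc, ← e6]
      exact e5
    exact le_of_mul_le_mul_right e8 e7
  have hlim := ((tendsto_rpow_atTop hδ).eventually_gt_atTop (N / (c₀ / 2))).and
    ((eventually_ge_atTop t₀).and (eventually_ge_atTop (nr W)))
  obtain ⟨y, hy1, hy2, hy3⟩ := hlim.exists
  have h1 := key y hy2 hy3
  rw [div_lt_iff₀ (by positivity)] at hy1
  linarith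

end H67.AT
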