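import Pool.Agent.H67.AT.Ndc
import Pool.Agent.H67.AT.Dlm
import Pool.Agent.H67.AT.Fbd
import Pool.Agent.H67.AT.Pos

/-!
# AT (MP_b39724_nt): the count for one value of `ds` (complete, proved)
-/

set_option autoImplicit false

open scoped NumberField Classical
open IsDedekindDomain H38.ML H63.MA H48.KV H67.AQ Filter Topology
open H48.T3 hiding Ch

noncomputable section

namespace H67.AT

variable {K : IntermediateField ℚ QBar} [NumberField K] {G : Type} [Group G]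

theorem cnt (k : KV G) {S : Finset (Pl K)} {Q : DP K QBar} {r : ℕ} (hW : WLog Q S r)
    (h1 : H57.LI.LI1 K QBar (mS S)) (hfb : FBS k Q S) (hL : LF3 S Q)
    (hS2 : ∀ v : Pl K, Above 2 v → v ∈ S) (hS3 : ∀ v : Pl K, Above 3 v → v ∈ S)
    (Am : (Gal(QBar/K) →* Multiplicative (ZMod 3)) → ℝ) (h3 : LA3 S Q Am)
    (hne : (H38.MT.Ch K).Nonempty) (ds : (Gal(QBar/K) →* G) → ℕ) (hds : LocInv Q S ds) (c : ℝ)
    (hc : 1 < c) :
    (∃ Df : Finset ℕ, ∀ φ : Gal(QBar/K) →* G, FT φ → Function.Surjective φ → ds φ ∈ Df) ∧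
    (∀ d X, (NDc k Q S ds c d X).Finite) ∧ ∃ L : ℕ → ℝ, (∀ d, 0 ≤ L d) ∧ (∃ d, 0 < L d) ∧
      ∀ d, Tendsto (fun X : ℝ => ((NDc k Q S ds c d X).ncard : ℝ) / X) atTop (𝓝 (L d)) := by
  obtain ⟨hDf, C₁, W, hC₁, hW0, hWp, hb⟩ := fbd k h1 hfb hL hS2 hS3 Am h3 ds hds
  refine ⟨hDf, ?_⟩
  obtain ⟨C, δ, hC, hδ0, hδ1, hsm⟩ := hW
  have hP : ∀ R : ℝ, {χ : Gal(QBar/K) →* Multiplicative (ZMod 3) | χ ∈ H38.MT.Ch K ∧
      H38.MT.cf Q S χ ≤ R}.Finite := fun R =>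
    ((hsm (max R 1) (le_max_right _ _)).1).subset fun χ hχ => ⟨hχ.1, hχ.2.trans (le_max_left _ _)⟩
  have hfinF : ∀ d, ∀ χ ∈ H38.MT.Ch K, ∀ Y : ℝ, 1 ≤ Y → (Fib k Q S ds χ d Y).Finite :=
    fun d χ hχ Y hY => ((hb d χ hχ).1 Y hY).1
  have hnd := fun d X => ndc_sum k Q S ds d c (by linarith) (hfinF d) hP X
  have key : ∀ d, ∃ L : ℝ, 0 ≤ L ∧ ((∃ χ ∈ H38.MT.Ch K, 0 < W d χ * Am χ) → 0 < L) ∧
      Tendsto (fun X : ℝ => ((NDc k Q S ds c d X).ncard : ℝ) / X) atTop (𝓝 L) := by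
    intro d
    obtain ⟨L, hL0, hLp, hLt⟩ := dlim (H38.MT.Ch K) (H38.MT.cf Q S) (fun χ => (selg (FX χ) : ℝ))
      (fun χ => W d χ * Am χ) (fun χ Y => ((Fib k Q S ds χ d Y).ncard : ℝ)) C C₁ ((r : ℝ) - δ) c hc
      (fun χ _ => one_le_nr _) (fun χ _ => Nat.cast_nonneg _)
      (fun R hR T hT => (hsm R hR).2 T hT)
      (fun χ hχ Y hY => ⟨Nat.cast_nonneg _, ((hb d χ hχ).1 Y hY).2⟩)
      (fun χ hχ => (hb d χ hχ).2) (fun X => ((hnd d X).1).toFinset) (fun X χ => by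
        rw [Set.Finite.mem_toFinset]
        rfl)
    refine ⟨L, hL0, hLp, hLt.congr fun X => ?_⟩
    have h4 := (hnd d X).2.2 ((hnd d X).1).toFinset (fun χ => by
      rw [Set.Finite.mem_toFinset]
      rfl)
    have h5 : ((NDc k Q S ds c d X).ncard : ℝ) = ∑ χ ∈ ((hnd d X).1).toFinset,
        ((Fib k Q S ds χ d (X / H38.MT.cf Q S χ ^ c)).ncard : ℝ) := by
      rw [← Nat.cast_sum]
      exact congrArg Nat.cast h4
    congr 1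
    exact h5.symm
  choose L hL0 hLp hLt using key
  refine ⟨fun d X => (hnd d X).2.1, L, hL0, ?_, hLt⟩
  obtain ⟨χ, hχ⟩ := hne
  obtain ⟨d, hd⟩ := hWp χ hχ
  exact ⟨d, hLp d ⟨χ, hχ, mul_pos hd (am_pos Am h3 χ hχ)⟩⟩

end H67.AT
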