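import Pool.Agent.H67.AQ.Defs
import Pool.Agent.H48.CR.Cr

/-!
# AT (MP_b39724_nt) CRW: the cubic ray class character of `χ` if `K` contains the cube roots of unity. File Pool/Agent/H67/AT/Crw.lean

The easy case of `crc` (H48/CR/Cr.lean): the same proof with `M = ⊥` (so `[M : K] = 1`), and the restriction `up` of the character of `M` to the ideals of `K`
without the complex conjugation.
-/

set_option autoImplicit false

open scoped NumberField Pointwise Classical
open IsDedekindDomain H63.MA H38.ML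

noncomputable section

namespace H67.AT

open H48.CR H48.AQ

section gen

variable {K M : Type} [Field K] [NumberField K] [Field M] [NumberField M] [Algebra K M]

private theorem cr_desc (A B : Ideal (𝓞 K)) (h : IsCoprime (H57.LI.md A M) (H57.LI.md B M)) :
    IsCoprime A B := by
  by_contra hc
  rw [Ideal.isCoprime_iff_sup_eq] at hc
  obtain ⟨p, hp, hle⟩ := Ideal.exists_le_maximal _ hc
  obtain ⟨P, hP1, hP2⟩ := Ideal.exists_maximal_ideal_liesOver_of_isIntegral (S := 𝓞 M) p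
  have h1 : ∀ C : Ideal (𝓞 K), C ≤ p → H57.LI.md C M ≤ P := by
    intro C hC
    unfold H57.LI.md
    rw [Ideal.map_le_iff_le_comap]
    exact hC.trans (le_of_eq (Ideal.LiesOver.over (P := P) (p := p)))
  rw [Ideal.isCoprime_iff_sup_eq] at h
  have h2 : H57.LI.md A M ⊔ H57.LI.md B M ≤ P :=
    sup_le (h1 A (le_sup_left.trans hle)) (h1 B (le_sup_right.trans hle))
  rw [h, top_le_iff] at h2
  exact hP1.ne_top h2

private theorem cr_asc (A B : Ideal (𝓞 K)) (h : IsCoprime A B) :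
    IsCoprime (H57.LI.md A M) (H57.LI.md B M) := by
  unfold H57.LI.md
  rw [Ideal.isCoprime_iff_sup_eq] at h ⊢
  rw [← Ideal.map_sup, h, Ideal.map_top]

private theorem cr_ne (A : Ideal (𝓞 K)) (h : A ≠ ⊥) : H57.LI.md A M ≠ ⊥ := by
  unfold H57.LI.md
  rw [Ne, Ideal.map_eq_bot_iff_of_injective (FaithfulSMul.algebraMap_injective (𝓞 K) (𝓞 M))]
  exact h

/-- the restriction of a ray class character of `M` to the ideals of `K` -/
def up {𝔪 : Ideal (𝓞 K)} (χ : RC M (H57.LI.md 𝔪 M)) : RC K 𝔪 where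
  χ :=
    { toFun := fun I => χ.χ (H57.LI.md I M)
      map_zero' := by
        have h : H57.LI.md (0 : Ideal (𝓞 K)) M = 0 := Ideal.map_bot
        rw [h, map_zero]
      map_one' := by
        have h : H57.LI.md (1 : Ideal (𝓞 K)) M = 1 := by
          unfold H57.LI.md
          rw [Ideal.one_eq_top, Ideal.map_top, Ideal.one_eq_top]
        rw [h, map_one]
      map_mul' := fun I J => by
        have h : H57.LI.md (I * J) M = H57.LI.md I M * H57.LI.md J M := Ideal.map_mul _ I J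
        rw [h, map_mul] }
  norm_one I hI hc := by
    show ‖χ.χ (H57.LI.md I M)‖ = 1
    exact χ.norm_one _ (cr_ne I hI) (cr_asc I 𝔪 hc)
  zero_of I hc := by
    show χ.χ (H57.LI.md I M) = 0
    rw [χ.zero_of _ fun h => hc (cr_desc I 𝔪 h)]
  ray x hx h1 := by
    show χ.χ (H57.LI.md (Ideal.span {x}) M) = 1
    have h2 : H57.LI.md (Ideal.span {x}) M = Ideal.span {algebraMap (𝓞 K) (𝓞 M) x} := by
      unfold H57.LI.md
      rw [Ideal.map_span, Set.image_singleton]
    rw [h2, χ.ray]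
    · rw [Ne, map_eq_zero_iff _ (FaithfulSMul.algebraMap_injective (𝓞 K) (𝓞 M))]
      exact hx
    · have h3 := Ideal.mem_map_of_mem (algebraMap (𝓞 K) (𝓞 M)) h1
      rw [map_sub, map_one] at h3
      exact h3

theorem up_apply {𝔪 : Ideal (𝓞 K)} (χ : RC M (H57.LI.md 𝔪 M)) (I : Ideal (𝓞 K)) :
    (up χ).χ I = χ.χ (H57.LI.md I M) := rfl

private theorem cr_above (w : Pl M) (l : Pl K) (hw : Over w l) (h : Above 3 w) : Above 3 l := by
  unfold Above at h ⊢
  rw [← (show w.asIdeal.comap (algebraMap (𝓞 K) (𝓞 M)) = l.asIdeal from hw), Ideal.mem_comap,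
    map_natCast]
  exact h

private theorem cr_nd2 (J : Ideal (𝓞 K)) (w : Pl M) (l : Pl K)
    (hw : Over w l) (h : w.asIdeal ∣ H57.LI.md J M) : l.asIdeal ∣ J := by
  have h1 : H57.LI.md J M ≤ w.asIdeal := Ideal.le_of_dvd h
  have h2 : J ≤ w.asIdeal.comap (algebraMap (𝓞 K) (𝓞 M)) := Ideal.map_le_iff_le_comap.1 h1
  rw [show w.asIdeal.comap (algebraMap (𝓞 K) (𝓞 M)) = l.asIdeal from hw] at h2
  exact Ideal.dvd_iff_le.2 h2

end gen

variable {K : IntermediateField ℚ QBar} [NumberField K]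

private theorem cr_nd (B : Finset (Pl K)) (l : Pl K) (h3 : ¬ Above 3 l) (hB : l ∉ B) :
    ¬ l.asIdeal ∣ H57.SL.mB B := by
  intro hd
  rcases (HeightOneSpectrum.prime l).dvd_or_dvd hd with h1 | h1
  · have h2 : (27 : 𝓞 K) ∈ l.asIdeal := Ideal.dvd_span_singleton.1 h1
    have h27 : (27 : 𝓞 K) = ((3 : ℕ) : 𝓞 K) ^ 3 := by norm_num
    rw [h27] at h2
    exact h3 (l.isPrime.mem_of_pow_mem 3 h2)
  · obtain ⟨w, hwE, h2⟩ := (HeightOneSpectrum.prime l).exists_mem_finset_dvd h1
    have h3 : w.asIdeal ≤ l.asIdeal := Ideal.le_of_dvd h2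
    have h4 : w = l := HeightOneSpectrum.ext (w.isMaximal.eq_of_le l.isPrime.ne_top h3)
    exact hB (h4 ▸ hwE)

omit [NumberField K] in
/-- `M = ⊥`: every element of `Gal(QBar/K)` comes from `Gal(QBar/M)` -/
private theorem cr_lift (σ : Gal(QBar/K)) :
    ∃ σ' : Gal(QBar/(⊥ : IntermediateField K QBar)), σ'.restrictScalars K = σ := by
  have hσ : σ ∈ (⊥ : IntermediateField K QBar).fixingSubgroup := by
    rw [IntermediateField.mem_fixingSubgroup_iff]
    intro z hz
    obtain ⟨k, rfl⟩ := IntermediateField.mem_bot.1 hz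
    exact σ.commutes k
  refine ⟨IntermediateField.fixingSubgroupEquiv _ ⟨σ, hσ⟩, ?_⟩
  ext x
  rfl

theorem crw {ω : K} (hω : IsPrimitiveRoot ω 3) (S : Finset (Pl K))
    (hS : ∀ v : Pl K, Above 3 v → v ∈ S) (Q : DP K QBar) : H67.AQ.CRC S Q := by
  intro χ hχ
  obtain ⟨M, hMb⟩ : ∃ M : IntermediateField K QBar, M = ⊥ := ⟨_, rfl⟩
  have hfin : Module.finrank K M = 1 := by
    rw [hMb]
    exact IntermediateField.finrank_bot
  have hfd : FiniteDimensional K M := Module.finite_of_finrank_pos (by rw [hfin]; exact one_pos)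
  have hnf : NumberField M := by
    have h1 : FiniteDimensional ℚ M := FiniteDimensional.trans ℚ K M
    exact ⟨⟩
  have hlift : ∀ σ : Gal(QBar/K), ∃ σ' : Gal(QBar/M), σ'.restrictScalars K = σ := by
    subst hMb
    exact cr_lift
  obtain ⟨ω', hω'⟩ : ∃ ω' : M, IsPrimitiveRoot ω' 3 :=
    ⟨algebraMap K M ω, hω.map_of_injective (f := algebraMap K M) (algebraMap K M).injective⟩
  have hcl := H48.T3.alg_cl M
  obtain ⟨δ, hδ⟩ := lc_ex M hω' χ hχ.1
  obtain ⟨B, hB⟩ : ∃ B : Finset (Pl K), B = S ∪ H38.MT.rf Q S χ := ⟨_, rfl⟩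
  rw [← hB]
  have hone : MOne 3 M := mone_odd Nat.prime_three (by norm_num) M
  obtain ⟨lam, hlam, hl1⟩ := exists_rec_deg M Nat.prime_three hone hω'
  -- unramified outside `B`
  have hunr : ∀ l, l ∉ B → ∀ σ ∈ (Q.P l).inertia Gal(QBar/K), χ σ = 1 := by
    intro l hl σ hσ
    by_contra hne
    apply hl
    rw [hB, Finset.mem_union]
    by_cases hlS : l ∈ S
    · exact Or.inl hlS
    · exact Or.inr ((H38.MT.ba_mem Q S hχ.1 l).2 ⟨hlS, σ, hσ, hne⟩)
  have h0 : H57.LI.md (H57.SL.mB B) M ≠ ⊥ := cr_ne _ (H57.SL.mB_ne B)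
  have h3 : Ideal.span {((3 : ℕ) : 𝓞 M) ^ 3} ∣ H57.LI.md (H57.SL.mB B) M := by
    have e : H57.LI.md (H57.SL.mB B) M =
        Ideal.span {((3 : ℕ) : 𝓞 M) ^ 3} * H57.LI.md (∏ v ∈ B, v.asIdeal) M := by
      unfold H57.LI.md H57.SL.mB
      rw [Ideal.map_mul, Ideal.map_span, Set.image_singleton, map_ofNat]
      congr 2
      norm_num
    rw [e]
    exact dvd_mul_right _ _
  have hlB : ∀ l, l ∉ B → ¬ Above 3 l := by
    intro l hl h
    apply hl
    rw [hB]
    exact Finset.mem_union_left _ (hS l h)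
  have hb : ∀ w : Pl M, ¬ Above 3 w → ((ord w δ : ℤ) : ZMod 3) ≠ 0 →
      w.asIdeal ∣ H57.LI.md (H57.SL.mB B) M := by
    intro w hw3 hw
    obtain ⟨l, hl⟩ := exists_below (K := K) w
    have hlB' : l ∈ B := by
      by_contra hlB'
      exact hw (lc_ord M hω' Q χ δ hδ l (hunr l hlB') w hl hw3)
    have h4 : H57.SL.mB B ≤ l.asIdeal := by
      unfold H57.SL.mB
      exact Ideal.le_of_dvd ((Finset.dvd_prod_of_mem _ hlB').mul_left _)
    rw [Ideal.dvd_iff_le]
    unfold H57.LI.md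
    rw [Ideal.map_le_iff_le_comap]
    exact h4.trans (show w.asIdeal.comap (algebraMap (𝓞 K) (𝓞 M)) = l.asIdeal from hl).ge
  obtain ⟨ψ, hψ⟩ := H51.CUB.chi_ex Nat.prime_three hω' hlam δ _ h0 h3 hb
  -- the values
  have hval : ∀ l, l ∉ B → (nm l).Prime →
      ψ.χ (H57.LI.md l.asIdeal M) = ep 3 (Multiplicative.toAdd (χ (H57.SL.fr Q l))) := by
    intro l hl hp
    have h5 := rc_pow (M := M) ψ.χ l (Multiplicative.toAdd (χ (H57.SL.fr Q l))) (by
      intro w hw
      obtain ⟨f, hf1, hf⟩ := nm_over hw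
      refine ⟨f, hf, ?_⟩
      have hf2 := pw_deg l w hw hf
      rw [hfin] at hf2
      have hw3 : ¬ Above 3 w := fun h => hlB l hl (cr_above w l hw h)
      have hnd : ¬ w.asIdeal ∣ H57.LI.md (H57.SL.mB B) M := fun hd =>
        cr_nd B l (hlB l hl) hl (cr_nd2 _ w l hw hd)
      have hlw : lam w = 1 := hl1 w hw3 (nm l) f hp hf (by
        intro hd
        have := Nat.le_of_dvd (by omega) hd
        omega)
      obtain ⟨π, hπ⟩ := exists_unif w
      rw [hψ.val w hnd π hπ, hlw, one_mul,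
        lc_val M hω' Q χ δ hδ l (hunr l hl) w hw hw3 f hf π hπ])
    rw [hfin, Nat.cast_one, one_mul] at h5
    exact h5
  have hdn : ∀ l, l ∉ B → (nm l).Prime →
      (up ψ).χ l.asIdeal = ep 3 (Multiplicative.toAdd (χ (H57.SL.fr Q l))) := by
    intro l hl hp
    rw [up_apply, hval l hl hp]
  refine ⟨up ψ, ?_, ?_⟩
  · -- not trivial
    have hpow : ¬ IsPow 3 δ := by
      intro hp
      obtain ⟨σ, hσ⟩ := hχ.2 (Multiplicative.ofAdd 1)
      obtain ⟨σ', hσ'⟩ := hlift σ
      have h4 := hδ σ'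
      rw [(kk_eq_zero_iff (Ω := QBar) Nat.prime_three hω' δ).2 hp σ', hσ', hσ] at h4
      revert h4
      decide
    obtain ⟨w, hwE, hw3, hwp, ho0, hlg⟩ := H1.AR.knn Nat.prime_three hone hω' hpow
      (Ideal.finite_factors h0).toFinset
    have hnd : ¬ w.asIdeal ∣ H57.LI.md (H57.SL.mB B) M := fun hd =>
      hwE ((Set.Finite.mem_toFinset _).2 hd)
    obtain ⟨l, hl⟩ := exists_below (K := K) w
    have hlB' : l ∉ B := by
      intro h
      apply hnd
      have h4 : H57.SL.mB B ≤ l.asIdeal := by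
        unfold H57.SL.mB
        exact Ideal.le_of_dvd ((Finset.dvd_prod_of_mem _ h).mul_left _)
      rw [Ideal.dvd_iff_le]
      unfold H57.LI.md
      rw [Ideal.map_le_iff_le_comap]
      exact h4.trans (show w.asIdeal.comap (algebraMap (𝓞 K) (𝓞 M)) = l.asIdeal from hl).ge
    obtain ⟨f, hf1, hf⟩ := nm_over hl
    have hf1' : f = 1 := by
      rw [hf] at hwp
      exact hwp.eq_one_of_pow
    have hlp : (nm l).Prime := by
      rw [hf, hf1', pow_one] at hwp
      exact hwp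
    refine ⟨l.asIdeal, l.ne_bot, ?_, ?_⟩
    · rw [Ideal.isCoprime_iff_sup_eq]
      by_contra hne
      have h1 : l.asIdeal = l.asIdeal ⊔ H57.SL.mB B := l.isMaximal.eq_of_le hne le_sup_left
      exact cr_nd B l (hlB l hlB') hlB' (Ideal.dvd_iff_le.2 (by rw [h1]; exact le_sup_right))
    · rw [hdn l hlB' hlp, Ne, ep_eq_one Nat.prime_three]
      intro h4
      apply hlg
      obtain ⟨π, hπ⟩ := exists_unif w
      have h5 := lc_val M hω' Q χ δ hδ l (hunr l hlB') w hl hw3 f hf π hπ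
      rw [h4, mul_zero] at h5
      have h6 : H63.MA.B 3 ω' w δ π = lg 3 ω' w δ := by
        unfold H63.MA.B
        rw [hπ, ho0, zpow_zero, inv_one, mul_one, zpow_one]
      rw [← h6]
      exact h5
  · intro l hlS hlr hp
    refine hdn l ?_ hp
    rw [hB, Finset.mem_union]
    rintro (h | h)
    · exact hlS h
    · exact hlr h

end H67.AT
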