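import Pool.Agent.H67.AQ.Defs

/-!
# AT (MP_b39724_nt): `A_4` in every transitive representation over EVERY number field. Definitions (complete)

`G` is transitive of degree 6 or 12 and isomorphic to `A_4`, `V` its Klein four group, `a₂` the index of the involutions, `a₃ > a₂` the index of the
elements of order 3 (`(2, 4)` and `(6, 8)`), `c = a₃ / a₂`. For a surjective `φ : Gal(QBar/K) → G` with character `χ = k.pi ∘ φ` the discriminant of the field is
`ds φ * cf χ ^ a₃ * nr (tf φ) ^ a₂`, where `ds φ` depends only on the restrictions of `φ` to the decomposition groups at the primes of `S`.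

`NDc`: the surjective homomorphisms with `ds φ = d` and `cf (k.pi ∘ φ) ^ c * nr (tf φ) ≤ X`.
-/

set_option autoImplicit false

open scoped NumberField Classical
open IsDedekindDomain H38.ML H63.MA H48.KV Filter Topology
open H48.T3 hiding Ch

noncomputable section

namespace H67.AT

variable {K : IntermediateField ℚ QBar} [NumberField K] {G : Type} [Group G]

/-- the surjective homomorphisms with `ds φ = d` and `cf (k.pi ∘ φ) ^ c * nr (tf φ) ≤ X` -/
def NDc (k : KV G) (Q : DP K QBar) (S : Finset (Pl K)) (ds : (Gal(QBar/K) →* G) → ℕ) (c : ℝ)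
    (d : ℕ) (X : ℝ) : Set (Gal(QBar/K) →* G) :=
  {φ | FT φ ∧ Function.Surjective φ ∧ ds φ = d ∧
    H38.MT.cf Q S (k.pi.comp φ) ^ c * nr (H38.EN.tf k Q S φ) ≤ X}

end H67.AT
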