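import Pool.Agent.H38.EN.Nds
import Pool.Agent.H38.MT.BA
import Pool.Agent.H48.KV.Dsc
import Pool.Agent.H38.BG.TCyc

/-!
# AT (MP_b39724_nt) DSD: the discriminant with two indices, 100-140 lines. File Pool/Agent/H67/AT/Dsd.lean

Read `dsc_out`, `dsc_form` (H48/KV/Dsc.lean) and `adi` (H38/EN/Adi.lean). `ds φ = ∏_{v ∈ S} nm v ^ ldx K (fieldOf i₀ φ) v` as in `dsc_form`; `LocInv` by `dsc_conj` (as the last part of `dsc_form`). For `v ∉ S`: `ldx K (fieldOf i₀ φ) v = n - orbs (image of the inertia group)` (the proof of `dsc_out`: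
`cdb_ldx_add`, `embOrb_le`, `embOrb_ge`). The image of the inertia group at `v ∉ S` is cyclic (`H38.BG.cyc`, its order divides `Nat.card G`, which divides `n!`: as in `adi`), generated by some `x`; `x = 1`: unramified, `ldx = 0`; `x ∈ V`, `x ≠ 1`: `v ∈ tf k Q S φ` (`tf_mem`), `ldx = a₂` by `h2`;
`x ∉ V`: `k.pi x ≠ 1` by `hk`, `v ∈ rf Q S (k.pi.comp φ)` (`H38.MT.ba_mem`), `ldx = a₃`. The product formula `ldx_prod` over `S ∪ rf ∪ tf` (disjoint, see `adi`). `cf = nr rf`, `nr T = ∏ nm`.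
-/

set_option autoImplicit false

open scoped NumberField Classical
open IsDedekindDomain H38.ML H63.MA H48.KV
open H48.T3 hiding Ch
open H38.AS H38.BG

noncomputable section

namespace H67.AT

variable {K : IntermediateField ℚ QBar} [NumberField K]

/-- `ldx` outside `S` for a given generator of the image of the inertia group -/
private theorem ldx_out {n : ℕ} (G : Subgroup (Equiv.Perm (Fin n)))
    (hG : MulAction.IsPretransitive G (Fin n))
    (S : Finset (Pl K)) (hS : ∀ v : Pl K, ((n.factorial : ℕ) : 𝓞 K) ∈ v.asIdeal → v ∈ S)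
    (Q : DP K QBar) (i₀ : Fin n) (φ : Gal(QBar/K) →* G) (hφ : Function.Surjective φ) (hft : FT φ)
    [NumberField (fieldOf i₀ φ)] (v : Pl K) (hv : v ∉ S) :
    ldx K (fieldOf i₀ φ) v =
      n - orbs ((((Q.P v).inertia Gal(QBar/K)).map φ).map G.subtype) := by
  classical
  obtain ⟨hfd, hdeg, -, hemb⟩ := small_field G hG K i₀ φ hφ hft
  have hvm : v.asIdeal.IsMaximal := v.isMaximal
  have : Fintype (v.asIdeal.primesOver (𝓞 (fieldOf i₀ φ))) :=
    Set.Finite.fintype (IsDedekindDomain.primesOver_finite v.asIdeal (𝓞 (fieldOf i₀ φ)))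
  have h1 := cdb_ldx_add K (fieldOf i₀ φ) v (by
    rw [hdeg]
    exact fun h => hv (hS v h))
  rw [hdeg] at h1
  have h2 := embOrb_le (fieldOf i₀ φ) v.asIdeal v.isPrime v.ne_bot (Q.P v) (Q.prime v) (Q.under v)
  have h2' := embOrb_ge (fieldOf i₀ φ) v.asIdeal v.isPrime v.ne_bot (Q.P v) (Q.prime v) (Q.under v)
  rw [hemb] at h2 h2'
  omega

theorem dsd {n : ℕ} (hn : 2 ≤ n) (G : Subgroup (Equiv.Perm (Fin n)))
    (hG : MulAction.IsPretransitive G (Fin n)) (k : KV G) (hk : ∀ g, k.pi g = 1 → g ∈ k.V)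
    (a₂ a₃ : ℕ)
    (h2 : ∀ x ∈ k.V, x ≠ 1 → n - orbs ((Subgroup.zpowers x).map G.subtype) = a₂)
    (h3 : ∀ x, x ∉ k.V → n - orbs ((Subgroup.zpowers x).map G.subtype) = a₃)
    (S : Finset (Pl K)) (hS : ∀ v : Pl K, ((n.factorial : ℕ) : 𝓞 K) ∈ v.asIdeal → v ∈ S)
    (Q : DP K QBar) (i₀ : Fin n) :
    ∃ ds : (Gal(QBar/K) →* G) → ℕ, LocInv Q S ds ∧
      ∀ φ : Gal(QBar/K) →* G, FT φ → Function.Surjective φ →
        0 < ds φ ∧ (H38.ML.relDisc K (fieldOf i₀ φ) : ℝ) =
          ds φ * H38.MT.cf Q S (k.pi.comp φ) ^ a₃ * nr (H38.EN.tf k Q S φ) ^ a₂ := by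
  refine ⟨fun φ => if h : NumberField (fieldOf i₀ φ) then
    ∏ v ∈ S, nm v ^ ldx K (fieldOf i₀ φ) v else 1, ?_, ?_⟩
  · intro φ φ' hφ hft hφ' hft' hT
    obtain ⟨hfd, hdeg, -, -⟩ := small_field G hG K i₀ φ hφ hft
    obtain ⟨hfd', hdeg', -, -⟩ := small_field G hG K i₀ φ' hφ' hft'
    have hnf : NumberField (fieldOf i₀ φ) := NumberField.of_module_finite K (fieldOf i₀ φ)
    have hnf' : NumberField (fieldOf i₀ φ') := NumberField.of_module_finite K (fieldOf i₀ φ')
    simp only [dif_pos hnf, dif_pos hnf']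
    refine Finset.prod_congr rfl fun v hv => ?_
    congr 1
    obtain ⟨δ, hδ⟩ := hT v hv
    exact dsc_conj hn G hG K Q i₀ φ φ' hφ hft hφ' hft' v δ hδ
  · intro φ hφ hs
    obtain ⟨hfd, hdeg, -, -⟩ := small_field G hG K i₀ φ hs hφ
    have hnf : NumberField (fieldOf i₀ φ) := NumberField.of_module_finite K (fieldOf i₀ φ)
    have hout := fun v hv => ldx_out G hG S hS Q i₀ φ hs hφ v hv
    simp only [dif_pos hnf]
    refine ⟨Finset.prod_pos fun v _ => Nat.pow_pos (by have := one_lt_nm v; omega), ?_⟩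
    have hfin : Finite G := inferInstance
    have hcyc : ∀ v, v ∉ S → ∃ τ ∈ (Q.P v).inertia Gal(QBar/K),
        ((Q.P v).inertia Gal(QBar/K)).map φ = Subgroup.zpowers (φ τ) := by
      intro v hv
      have hc : ((Nat.card (((Q.P v).inertia Gal(QBar/K)).map φ) : ℕ) : 𝓞 K) ∉ v.asIdeal := by
        intro h
        apply hv
        have h5 := (Subgroup.card_subgroup_dvd_card
          (((Q.P v).inertia Gal(QBar/K)).map φ)).trans (Subgroup.card_subgroup_dvd_card G)
        have h6 : Nat.card (Equiv.Perm (Fin n)) = n.factorial := by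
          rw [Nat.card_perm, Nat.card_fin]
        rw [h6] at h5
        obtain ⟨m, hm⟩ := h5
        apply hS v
        rw [hm, Nat.cast_mul]
        exact Ideal.mul_mem_right _ _ h
      obtain ⟨τ, hτ, hcy⟩ := H38.BG.cyc v (Q.P v) (Q.prime v) (Q.under v) φ hφ hc
      refine ⟨τ, hτ, le_antisymm ?_ ?_⟩
      · rintro _ ⟨σ, hσ, rfl⟩
        exact hcy σ hσ
      · rw [Subgroup.zpowers_le]
        exact ⟨τ, hτ, rfl⟩
    have hχ : FT (k.pi.comp φ) := ft_comp k.pi φ hφ
    have hdisj : Disjoint (H38.MT.rf Q S (k.pi.comp φ)) (H38.EN.tf k Q S φ) := by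
      rw [Finset.disjoint_left]
      intro v hv hv'
      obtain ⟨-, σ, hσ, h1⟩ := (H38.MT.ba_mem Q S hχ v).1 hv
      obtain ⟨-, -, h5⟩ := (H38.EN.tf_mem k Q S φ hφ v).1 hv'
      exact h1 (k.piV _ (h5 σ hσ))
    have hrf : ∀ v ∈ H38.MT.rf Q S (k.pi.comp φ), v ∉ S ∧ ldx K (fieldOf i₀ φ) v = a₃ := by
      intro v hv
      obtain ⟨hvS, σ, hσ, h1⟩ := (H38.MT.ba_mem Q S hχ v).1 hv
      refine ⟨hvS, ?_⟩
      obtain ⟨τ, hτ, hJ⟩ := hcyc v hvS
      rw [hout v hvS, hJ]
      apply h3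
      intro hV
      apply h1
      have h5 : φ σ ∈ Subgroup.zpowers (φ τ) := by
        rw [← hJ]
        exact ⟨σ, hσ, rfl⟩
      have h6 : Subgroup.zpowers (φ τ) ≤ k.V := by
        rw [Subgroup.zpowers_le]
        exact hV
      exact k.piV _ (h6 h5)
    have htf : ∀ v ∈ H38.EN.tf k Q S φ, v ∉ S ∧ ldx K (fieldOf i₀ φ) v = a₂ := by
      intro v hv
      obtain ⟨hvS, ⟨σ, hσ, h1⟩, h4⟩ := (H38.EN.tf_mem k Q S φ hφ v).1 hv
      refine ⟨hvS, ?_⟩
      obtain ⟨τ, hτ, hJ⟩ := hcyc v hvS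
      rw [hout v hvS, hJ]
      apply h2 _ (h4 τ hτ)
      intro h5
      apply h1
      have h6 : φ σ ∈ Subgroup.zpowers (φ τ) := by
        rw [← hJ]
        exact ⟨σ, hσ, rfl⟩
      rwa [h5, Subgroup.zpowers_one_eq_bot, Subgroup.mem_bot] at h6
    have hrel : H38.ML.relDisc K (fieldOf i₀ φ) =
        Ideal.absNorm (differentIdeal (𝓞 K) (𝓞 (fieldOf i₀ φ))) := by
      unfold H38.ML.relDisc
      rw [dif_pos hnf]
    have hdS : Disjoint S (H38.MT.rf Q S (k.pi.comp φ) ∪ H38.EN.tf k Q S φ) := by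
      rw [Finset.disjoint_left]
      intro v hv hvT
      rcases Finset.mem_union.1 hvT with h | h
      · exact (hrf v h).1 hv
      · exact (htf v h).1 hv
    rw [hrel, (ldx_prod K (fieldOf i₀ φ)).2
      (S ∪ (H38.MT.rf Q S (k.pi.comp φ) ∪ H38.EN.tf k Q S φ)) ?_, Finset.prod_union hdS,
      Finset.prod_union hdisj]
    · have e1 : ∏ v ∈ H38.MT.rf Q S (k.pi.comp φ), nm v ^ ldx K (fieldOf i₀ φ) v =
          (∏ v ∈ H38.MT.rf Q S (k.pi.comp φ), nm v) ^ a₃ := by
        rw [← Finset.prod_pow]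
        refine Finset.prod_congr rfl fun v hv => ?_
        rw [(hrf v hv).2]
      have e2 : ∏ v ∈ H38.EN.tf k Q S φ, nm v ^ ldx K (fieldOf i₀ φ) v =
          (∏ v ∈ H38.EN.tf k Q S φ, nm v) ^ a₂ := by
        rw [← Finset.prod_pow]
        refine Finset.prod_congr rfl fun v hv => ?_
        rw [(htf v hv).2]
      rw [e1, e2]
      unfold H38.MT.cf nr
      push_cast
      ring
    · intro v hv
      rw [Finset.mem_union]
      by_cases hv0 : v ∈ S
      · exact Or.inl hv0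
      · right
        rw [Finset.mem_union]
        by_contra hno
        push Not at hno
        apply hv
        obtain ⟨τ, hτ, hJ⟩ := hcyc v hv0
        have h1 : φ τ = 1 := by
          by_contra h1
          by_cases h6 : φ τ ∈ k.V
          · apply hno.2
            rw [H38.EN.tf_mem k Q S φ hφ v]
            refine ⟨hv0, ⟨τ, hτ, h1⟩, fun σ hσ => ?_⟩
            have h7 : φ σ ∈ Subgroup.zpowers (φ τ) := by
              rw [← hJ]
              exact ⟨σ, hσ, rfl⟩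
            have h8 : Subgroup.zpowers (φ τ) ≤ k.V := by
              rw [Subgroup.zpowers_le]
              exact h6
            exact h8 h7
          · apply hno.1
            rw [H38.MT.ba_mem Q S hχ v]
            exact ⟨hv0, τ, hτ, fun h8 => h6 (hk _ h8)⟩
        rw [hout v hv0, hJ, h1, Subgroup.zpowers_one_eq_bot, Subgroup.map_bot, orbs_bot]
        omega

end H67.AT
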