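import Pool.Agent.H67.AT.Cnt
import Pool.Agent.H67.AT.Dsd
import Pool.Agent.H38.AS.QNk
import Pool.Agent.H63.MC.CFin

/-!
# AT (MP_b39724_nt): the number of fields (complete, proved)

Pattern `fnb` in H67/AQ/Fnb.lean.
-/

set_option autoImplicit false

open scoped NumberField Classical
open IsDedekindDomain H38.ML H63.MA H48.KV H67.AQ Filter Topology
open H48.T3 hiding Ch

noncomputable section

namespace H67.AT

variable {K : IntermediateField ℚ QBar} [NumberField K]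

theorem fnt {n : ℕ} (hn : 2 ≤ n) (G : Subgroup (Equiv.Perm (Fin n)))
    (hG : MulAction.IsPretransitive G (Fin n)) (k : KV G) (hk : ∀ g, k.pi g = 1 → g ∈ k.V)
    (a₂ a₃ : ℕ) (ha : 0 < a₂) (h23 : a₂ < a₃)
    (hV2 : ∀ x ∈ k.V, x ≠ 1 → n - orbs ((Subgroup.zpowers x).map G.subtype) = a₂)
    (hV3 : ∀ x, x ∉ k.V → n - orbs ((Subgroup.zpowers x).map G.subtype) = a₃)
    {S : Finset (Pl K)} {Q : DP K QBar} {r : ℕ} (hW : WLog Q S r)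
    (h1 : H57.LI.LI1 K QBar (mS S)) (hfb : FBS k Q S) (hL : LF3 S Q)
    (hS : ∀ v : Pl K, ((n.factorial : ℕ) : 𝓞 K) ∈ v.asIdeal → v ∈ S)
    (hS2 : ∀ v : Pl K, Above 2 v → v ∈ S) (hS3 : ∀ v : Pl K, Above 3 v → v ∈ S)
    (Am : (Gal(QBar/K) →* Multiplicative (ZMod 3)) → ℝ) (h3 : LA3 S Q Am)
    (hne : (H38.MT.Ch K).Nonempty) :
    ∃ C : ℝ, 0 < C ∧ ∃ k : ℝ → ℕ,
      (∀ B : ℝ, Spec.nK K QBar G B = (k B : ℕ∞)) ∧
      Tendsto (fun B : ℝ => (k B : ℝ) / B ^ (1 / (a₂ : ℝ))) atTop (𝓝 C) := by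
  have i₀ : Fin n := ⟨0, by omega⟩
  have ha' : (0 : ℝ) < a₂ := by exact_mod_cast ha
  have h23' : (a₂ : ℝ) < a₃ := by exact_mod_cast h23
  obtain ⟨c, hcc⟩ : ∃ c : ℝ, c = (a₃ : ℝ) / a₂ := ⟨_, rfl⟩
  have hc1 : 1 < c := by
    rw [hcc, lt_div_iff₀ ha', one_mul]
    exact h23'
  have hca : c * a₂ = a₃ := by
    rw [hcc]
    field_simp
  obtain ⟨ds, hds, hrel⟩ := dsd hn G hG k hk a₂ a₃ hV2 hV3 S hS Q i₀
  obtain ⟨⟨Df, hDf⟩, hfin, L, hL0, ⟨d₀, hd₀⟩, hlim⟩ := cnt k hW h1 hfb hL hS2 hS3 Am h3 hne ds hds c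
    hc1
  obtain ⟨CS, hCS⟩ : ∃ CS : ℝ → Set (Gal(QBar/K) →* G), ∀ B, CS B =
    {φ : Gal(QBar/K) →* G | FT φ ∧
      Function.Surjective φ ∧ (H38.ML.relDisc K (fieldOf i₀ φ) : ℝ) ≤ B} :=
    ⟨_, fun _ => rfl⟩
  have hmem : ∀ B φ, φ ∈ CS B ↔ FT φ ∧ Function.Surjective φ ∧
      (H38.ML.relDisc K (fieldOf i₀ φ) : ℝ) ≤ B := by
    intro B φ
    rw [hCS]
    rfl
  -- the power `a₂` of the conductor
  have hpow : ∀ φ : Gal(QBar/K) →* G, (H38.MT.cf Q S (k.pi.comp φ) ^ c *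
      nr (H38.EN.tf k Q S φ)) ^ a₂ = H38.MT.cf Q S (k.pi.comp φ) ^ a₃ *
        nr (H38.EN.tf k Q S φ) ^ a₂ := by
    intro φ
    have h0 : 0 ≤ H38.MT.cf Q S (k.pi.comp φ) := zero_le_one.trans (one_le_nr _)
    rw [mul_pow, ← Real.rpow_natCast (H38.MT.cf Q S (k.pi.comp φ) ^ c) a₂, ← Real.rpow_mul h0, hca,
      Real.rpow_natCast]
  have hkey : ∀ B : ℝ, 0 ≤ B → ∀ d : ℕ, 0 < d → ∀ φ,
      φ ∈ NDc k Q S ds c d ((B / d) ^ (1 / (a₂ : ℝ))) ↔ φ ∈ CS B ∧ ds φ = d := by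
    intro B hB d hd φ
    have hd' : (0 : ℝ) < d := by exact_mod_cast hd
    have h3 : ∀ t : ℝ, 0 ≤ t → (t ≤ (B / d) ^ (1 / (a₂ : ℝ)) ↔ (d : ℝ) * t ^ a₂ ≤ B) := by
      intro t ht
      have hB' : 0 ≤ B / d := div_nonneg hB hd'.le
      rw [one_div, Real.le_rpow_inv_iff_of_pos ht hB' ha', Real.rpow_natCast, le_div_iff₀ hd',
        mul_comm]
    have h0 : 0 ≤ H38.MT.cf Q S (k.pi.comp φ) ^ c * nr (H38.EN.tf k Q S φ) :=
      mul_nonneg (Real.rpow_nonneg (zero_le_one.trans (one_le_nr _)) _)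
        (zero_le_one.trans (one_le_nr _))
    constructor
    · rintro ⟨h4, h5, h6, h7⟩
      refine ⟨(hmem B φ).2 ⟨h4, h5, ?_⟩, h6⟩
      rw [(hrel φ h4 h5).2, h6, mul_assoc, ← hpow]
      exact (h3 _ h0).1 h7
    · rintro ⟨h4, h6⟩
      obtain ⟨h4, h5, h7⟩ := (hmem B φ).1 h4
      refine ⟨h4, h5, h6, ?_⟩
      rw [(hrel φ h4 h5).2, h6, mul_assoc, ← hpow] at h7
      exact (h3 _ h0).2 h7
  obtain ⟨D', hD'⟩ : ∃ D' : Finset ℕ, D' = Df.filter fun d => 0 < d := ⟨_, rfl⟩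
  have hD'p : ∀ d ∈ D', 0 < d := fun d hd => by
    rw [hD'] at hd
    exact (Finset.mem_filter.1 hd).2
  have hD'r : ∀ d ∈ D', (0 : ℝ) < d := fun d hd => by exact_mod_cast hD'p d hd
  have hDφ : ∀ φ, FT φ → Function.Surjective φ → ds φ ∈ D' := fun φ h4 h5 => by
    rw [hD']
    exact Finset.mem_filter.2 ⟨hDf φ h4 h5, (hrel φ h4 h5).1⟩
  have hfin0 : ∀ B, 0 ≤ B → (CS B).Finite := by
    intro B hB
    have h3 : (⋃ d ∈ D', NDc k Q S ds c d ((B / d) ^ (1 / (a₂ : ℝ)))).Finite :=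
      Set.Finite.biUnion D'.finite_toSet fun d _ => hfin d _
    refine h3.subset fun φ hφ => ?_
    obtain ⟨h4, h5, h7⟩ := (hmem B φ).1 hφ
    exact Set.mem_biUnion (hDφ φ h4 h5) ((hkey B hB (ds φ) (hrel φ h4 h5).1 φ).2 ⟨hφ, rfl⟩)
  have hfinB : ∀ B, (CS B).Finite := by
    intro B
    refine (hfin0 (max B 0) (le_max_right _ _)).subset fun φ hφ => ?_
    rw [hmem] at hφ ⊢
    exact ⟨hφ.1, hφ.2.1, hφ.2.2.trans (le_max_left _ _)⟩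
  have hsum : ∀ B : ℝ, 0 ≤ B → ((CS B).ncard : ℝ) =
      ∑ d ∈ D', ((NDc k Q S ds c d ((B / d) ^ (1 / (a₂ : ℝ)))).ncard : ℝ) := by
    intro B hB
    rw [Set.ncard_eq_toFinset_card _ (hfinB B), Finset.card_eq_sum_card_fiberwise
      (f := ds) (t := D') fun φ hφ => by
        obtain ⟨h4, h5, -⟩ := (hmem B φ).1 ((hfinB B).mem_toFinset.1 hφ)
        exact hDφ φ h4 h5]
    push_cast
    refine Finset.sum_congr rfl fun d hd => ?_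
    congr 1
    rw [← Set.ncard_coe_finset]
    congr 1
    ext φ
    rw [hkey B hB d (hD'p d hd) φ]
    simp
  have hlim1 : ∀ d, Tendsto (fun X : ℝ => ((NDc k Q S ds c d X).ncard : ℝ) /
      (X * Real.log X ^ 0)) atTop (𝓝 (L d)) := by
    intro d
    simp only [pow_zero, mul_one]
    exact hlim d
  have hlim2 := tendsto_finsetSum D' fun d hd => cfin_lim
    (fun X : ℝ => ((NDc k Q S ds c d X).ncard : ℝ)) (L d) 0 (hlim1 d) (a₂ : ℝ) ha' (d : ℝ)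
    (hD'r d hd)
  obtain ⟨c', hc'⟩ : ∃ c' : ℝ,
      c' = ∑ d ∈ D', L d * ((d : ℝ) ^ (-(1 / (a₂ : ℝ))) * (1 / (a₂ : ℝ)) ^ 0) := ⟨_, rfl⟩
  rw [← hc'] at hlim2
  -- positivity
  have hd₀D : d₀ ∈ D' := by
    by_contra h6
    have h7 : ∀ X : ℝ, NDc k Q S ds c d₀ X = ∅ := by
      intro X
      rw [Set.eq_empty_iff_forall_notMem]
      rintro φ ⟨g1, g2, g3, -⟩
      apply h6
      rw [← g3]
      exact hDφ φ g1 g2
    have h8 := hlim d₀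
    simp only [h7, Set.ncard_empty, Nat.cast_zero, zero_div] at h8
    have h9 := tendsto_nhds_unique h8 tendsto_const_nhds
    rw [h9] at hd₀
    exact lt_irrefl _ hd₀
  have hterm : ∀ d ∈ D', 0 ≤ L d * ((d : ℝ) ^ (-(1 / (a₂ : ℝ))) * (1 / (a₂ : ℝ)) ^ 0) := by
    intro d hd
    exact mul_nonneg (hL0 d) (mul_nonneg (Real.rpow_nonneg (hD'r d hd).le _) (by norm_num))
  have hc0 : 0 < c' := by
    rw [hc']
    refine lt_of_lt_of_le ?_ (Finset.single_le_sum (f := fun d : ℕ =>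
      L d * ((d : ℝ) ^ (-(1 / (a₂ : ℝ))) * (1 / (a₂ : ℝ)) ^ 0)) (fun d hd => hterm d hd) hd₀D)
    exact mul_pos hd₀ (mul_pos (Real.rpow_pos_of_pos (hD'r d₀ hd₀D) _) (by norm_num))
  have hcl : Tendsto (fun B : ℝ => ((CS B).ncard : ℝ) / B ^ (1 / (a₂ : ℝ))) atTop (𝓝 c') := by
    refine hlim2.congr' ?_
    filter_upwards [eventually_ge_atTop (0 : ℝ)] with B hB
    rw [hsum B hB, Finset.sum_div]
    simp only [pow_zero, mul_one]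
  obtain ⟨c₀, hc₀, hnk⟩ := H38.AS.nk2 G hG
  have hkk : ∀ B : ℝ, ∃ k' : ℕ, Spec.nK K QBar G B = (k' : ℕ∞) ∧
      k' * c₀ = (CS B).ncard := by
    intro B
    have h6 := hnk K inferInstance i₀ B (by rw [← hCS]; exact hfinB B)
    rw [← hCS] at h6
    exact h6
  choose k' hk1 hk2 using hkk
  have hc₀R : (0 : ℝ) < (c₀ : ℝ) := by exact_mod_cast hc₀
  refine ⟨c' / (c₀ : ℝ), div_pos hc0 hc₀R, k', hk1, (hcl.div_const (c₀ : ℝ)).congr fun B => ?_⟩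
  rw [← hk2 B]
  push_cast
  field_simp

end H67.AT
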