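import Pool.Agent.H48.A4.All
import Pool.Agent.H38.EN.Akv

/-!
# AT (MP_b39724_nt) GRP: the transitive groups of degree 6 and 12 isomorphic to `A_4`, 100-150 lines. File Pool/Agent/H67/AT/Grp.lean

* `k`: `a4_klein e` (H48/A4/All.lean) gives `V`, `kv_ex` (H48/KV/GrpC.lean) gives `k` with `k.V = V`; `ker k.pi = V` by cardinality, exactly as `akv` in H38/EN/Akv.lean (`Nat.card G = 12` by `a4_card e`).
* elements of `V \ 1` are conjugate (`kv_psi`), so all have the same number of orbits; let `a₂` be their index. Elements `x ∉ V` have `x ^ 3 = 1` (`a4_ord`: `(e x)^2 = 1` or `(e x)^3 = 1`, and involutions are in `V`; for `n = 6, 12` they have no fixed point (proof of `a4_least` in H48/A4/Grp.lean: the order of a point stabilizer is `12 / n`, which is 2 or 1), so by `orb_three`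
  `n = 3 orbs`, index `a₃ = n - n / 3 = 2 n / 3` (4 or 8). `a₂ ≤ n / 2` by `orb_two` (3 or 6), `< a₃`; `0 < a₂` (`pidx_pos` / `idx_pos`: `x ≠ 1` has fewer than `n` orbits). `indG G = a₂`: the least index is attained (`Nat.sInf_mem`), by an element of `V` (`a4_least`) or directly because `a₂ < a₃`.
* `orbs ((zpowers x).map G.subtype)` is `orbs (zpowers (x : Perm))` (`MonoidHom.map_zpowers`, see `orbs_z` in H38/EN/Adi.lean), `ind g = n - orbs (zpowers g)` by definition.
* `betaAll = 1`: `H48.KV.fin_beta k hn hG hI K`, `hI` from `a4_least`.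
-/

set_option autoImplicit false

open IsDedekindDomain H38.ML H48.KV

noncomputable section

namespace H67.AT

private theorem g_ord : ∀ g : alternatingGroup (Fin 4), g ^ 2 = 1 ∨ g ^ 3 = 1 := by
  decide

private theorem g_v : ∀ g : alternatingGroup (Fin 4), g ^ 2 = 1 →
    g ∈ alternatingGroup.kleinFour (Fin 4) := by
  intro g hg
  have h4 : Nat.card (Fin 4) = 4 := by simp
  have h1 : orderOf (g : Equiv.Perm (Fin 4)) ∣ 2 ^ 1 := by
    rw [Subgroup.orderOf_coe, pow_one]
    exact orderOf_dvd_of_pow_eq_one hg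
  rcases alternatingGroup.mem_kleinFour_of_order_two_pow h4 g.2 h1 with h | h
  · have h2 : (g : Equiv.Perm (Fin 4)) = 1 := Equiv.Perm.cycleType_eq_zero.1 h
    have h3 : g = 1 := Subtype.ext h2
    rw [h3]
    exact Subgroup.one_mem _
  · exact Subgroup.subset_closure h

private theorem g_out {n : ℕ} (G : Subgroup (Equiv.Perm (Fin n)))
    (hG : MulAction.IsPretransitive G (Fin n)) (e : G ≃* alternatingGroup (Fin 4))
    (hn : n = 6 ∨ n = 12) (g : G) (h : ¬ e g ∈ alternatingGroup.kleinFour (Fin 4)) :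
    n - orbs ((Subgroup.zpowers g).map G.subtype) = n - n / 3 := by
  have hg : g ≠ 1 := by
    rintro rfl
    exact h (by rw [map_one]; exact Subgroup.one_mem _)
  rcases g_ord (e g) with h' | h'
  · exact absurd (g_v _ h') h
  have hg3 : g ^ 3 = 1 := by
    apply e.injective
    rw [map_pow, h', map_one]
  have hn0 : 0 < n := by rcases hn with rfl | rfl <;> norm_num
  have hgp : (g : Equiv.Perm (Fin n)) ^ 3 = 1 := by
    rw [← Subgroup.coe_pow, hg3]
    rfl
  have hfix : ∀ x, (g : Equiv.Perm (Fin n)) x ≠ x := by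
    intro x hx
    have h1 := Subgroup.card_mul_index (MulAction.stabilizer G x)
    rw [MulAction.index_stabilizer_of_transitive G x, H48.A4.a4_card e,
      Nat.card_eq_fintype_card (α := Fin n), Fintype.card_fin] at h1
    have h2 : g ∈ MulAction.stabilizer G x := MulAction.mem_stabilizer_iff.2 hx
    have h3 : orderOf g = 3 := by
      have hp : Fact (Nat.Prime 3) := ⟨Nat.prime_three⟩
      exact orderOf_eq_prime hg3 hg
    have h4 : 3 ∣ Nat.card (MulAction.stabilizer G x) := by
      rw [← h3]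
      exact Subgroup.orderOf_dvd_natCard _ h2
    obtain ⟨m, hm⟩ := h4
    rw [hm] at h1
    rcases hn with rfl | rfl <;> omega
  have hz : (Subgroup.zpowers g).map G.subtype = Subgroup.zpowers (g : Equiv.Perm (Fin n)) := by
    rw [MonoidHom.map_zpowers]
    rfl
  rw [hz]
  rcases H48.A4.orb_three _ hgp hfix with h1 | h1
  · omega
  · omega

theorem grp {n : ℕ} (G : Subgroup (Equiv.Perm (Fin n)))
    (hG : MulAction.IsPretransitive G (Fin n)) (e : G ≃* alternatingGroup (Fin 4))
    (hn : n = 6 ∨ n = 12) :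
    ∃ (k : KV G) (a₂ a₃ : ℕ), (∀ g, k.pi g = 1 → g ∈ k.V) ∧ 0 < a₂ ∧ a₂ < a₃ ∧
      H38.ML.indG G = a₂ ∧
      (∀ x ∈ k.V, x ≠ 1 → n - orbs ((Subgroup.zpowers x).map G.subtype) = a₂) ∧
      (∀ x, x ∉ k.V → n - orbs ((Subgroup.zpowers x).map G.subtype) = a₃) ∧
      ∀ K : IntermediateField ℚ QBar, Spec.betaAll K QBar G = 1 := by
  have hn2 : 2 ≤ n := by rcases hn with rfl | rfl <;> norm_num
  obtain ⟨V, hV, h4, h2, hnil, hv⟩ := H48.A4.a4_klein e
  have hnn : ¬ Group.IsNilpotent G := by
    intro hGn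
    exact H48.A4.a4_nn (Group.nilpotent_of_mulEquiv e)
  obtain ⟨k, hk⟩ := kv_ex V h4 h2 hnil hnn
  subst hk
  have hker : ∀ g, k.pi g = 1 → g ∈ k.V := by
    have h5 : Nat.card k.pi.ker = 4 := by
      have h6 := k.pi.ker.card_mul_index
      rw [Subgroup.index_ker, MonoidHom.range_eq_top.2 k.sj, Subgroup.card_top,
        H48.A4.a4_card e] at h6
      have h7 : Nat.card (Multiplicative (ZMod 3)) = 3 := Nat.card_zmod 3
      rw [h7] at h6
      omega
    have h8 : k.V = k.pi.ker := by
      apply Subgroup.eq_of_le_of_card_ge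
      · intro x hx
        exact k.piV x hx
      · rw [h5, h4]
    intro g hg
    rw [h8]
    exact hg
  have hI : ∀ g : G, g ≠ 1 → ind (g : Equiv.Perm (Fin n)) = H38.ML.indG G → g ∈ k.V :=
    fun g hg hi => hv g (H48.A4.a4_least G hG e hn g hg hi)
  have hout : ∀ x, x ∉ k.V → n - orbs ((Subgroup.zpowers x).map G.subtype) = n - n / 3 :=
    fun x hx => g_out G hG e hn x fun h => hx (hv x h)
  refine ⟨k, H38.ML.indG G, n - n / 3, hker, idx_pos hn2 hG, ?_, rfl,
    fun x hx hx1 => idx_zp k hn2 hG hI x hx hx1, hout, fun K => fin_beta k hn2 hG hI K⟩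
  obtain ⟨g, hg⟩ := k.sj (Multiplicative.ofAdd 1)
  have hgV : g ∉ k.V := by
    intro h
    rw [k.piV g h] at hg
    exact absurd hg (by decide)
  have h9 := idx_out k hn2 hG hI (Subgroup.zpowers g) g (Subgroup.mem_zpowers g) hgV
  rw [hout g hgV] at h9
  omega

end H67.AT
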