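import Pool.Agent.H67.AT.Fnt
import Pool.Agent.H67.AT.Grp
import Pool.Agent.H67.AT.Crw
import Pool.Agent.H67.AQ.Main

/-!
# AT (MP_b39724_nt): Malle's conjecture for all transitive groups isomorphic to `A_4` over every number field (complete, proved)
-/

set_option autoImplicit false

open scoped NumberField Classical
open IsDedekindDomain H38.ML H63.MA H48.KV H67.AQ Filter Topology
open H48.T3 hiding Ch

noncomputable section

namespace H67.AT

/-- the inputs, for every number field -/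
theorem inp (K : IntermediateField ℚ QBar) [NumberField K] (S : Finset (Pl K)) (Q : DP K QBar)
    (hS3 : ∀ v : Pl K, Above 3 v → v ∈ S) :
    (∃ r : ℕ, WLog Q S r) ∧ ∃ Am : (Gal(QBar/K) →* Multiplicative (ZMod 3)) → ℝ, LA3 S Q Am := by
  by_cases h : ∃ ω : K, IsPrimitiveRoot ω 3
  · obtain ⟨ω, hω⟩ := h
    obtain ⟨Am, h3, -, -⟩ := H32.AQ.la S Q (H1.GS.icg _) (crw hω S hS3 Q)
    exact ⟨⟨2, H38.AQ.ws hω Q S⟩, Am, h3⟩
  · have hK : No3 K := fun ω hω => h ⟨ω, hω⟩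
    obtain ⟨Am, h3, -, -⟩ := H32.AQ.la S Q (H1.GS.icg _) (H48.CR.crc hK S hS3 Q)
    exact ⟨⟨1, H88.AQ.w1 hK S Q⟩, Am, h3⟩

/-- degrees 6 and 12 -/
theorem a4_six {n : ℕ} (G : Subgroup (Equiv.Perm (Fin n)))
    (hG : MulAction.IsPretransitive G (Fin n)) (e : G ≃* alternatingGroup (Fin 4))
    (hn : n = 6 ∨ n = 12) (K : IntermediateField ℚ QBar) [NumberField K] :
    Spec.betaAll K QBar G = 1 ∧ (∀ B : ℝ, Spec.nK K QBar G B ≠ ⊤) ∧
    ∃ C : ℝ, 0 < C ∧ Tendsto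
      (fun B : ℝ => ((Spec.nK K QBar G B).toNat : ℝ) / B ^ (1 / (Spec.indG G : ℝ))) atTop (𝓝 C) := by
  obtain ⟨k, a₂, a₃, hk, ha, h23, hi, hV2, hV3, hb⟩ := grp G hG e hn
  have hn2 : 2 ≤ n := by omega
  have hn0 : n.factorial ≠ 0 := Nat.factorial_ne_zero n
  obtain ⟨S, hS⟩ : ∃ S : Finset (Pl K), S = (finite_above (K := K) hn0).toFinset ∪
      ((finite_above (K := K) two_ne_zero).toFinset ∪
      (finite_above (K := K) three_ne_zero).toFinset) := ⟨_, rfl⟩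
  have hSn : ∀ v : Pl K, ((n.factorial : ℕ) : 𝓞 K) ∈ v.asIdeal → v ∈ S := fun v hv => by
    rw [hS]
    exact Finset.mem_union_left _ ((finite_above (K := K) hn0).mem_toFinset.2 hv)
  have hS2 : ∀ v : Pl K, Above 2 v → v ∈ S := fun v hv => by
    rw [hS]
    exact Finset.mem_union_right _ (Finset.mem_union_left _
      ((finite_above (K := K) two_ne_zero).mem_toFinset.2 hv))
  have hS3 : ∀ v : Pl K, Above 3 v → v ∈ S := fun v hv => by
    rw [hS]
    exact Finset.mem_union_right _ (Finset.mem_union_right _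
      ((finite_above (K := K) three_ne_zero).mem_toFinset.2 hv))
  obtain ⟨Q⟩ := exists_DP K QBar
  obtain ⟨⟨r, hW⟩, Am, h3⟩ := inp K S Q hS3
  obtain ⟨C, hC, k', hk', hlim⟩ := fnt hn2 G hG k hk a₂ a₃ ha h23 hV2 hV3 hW (H1.GS.li12 S).1
    (H48.AQ.fbs k hk S hS2 Q) (H48.AQ.lf3 S Q) hSn hS2 hS3 Am h3 (ch_ne K)
  have hi' : Spec.indG G = a₂ := hi
  refine ⟨hb K, fun B h => ENat.natCast_ne_top (k' B) ((hk' B).symm.trans h), C, hC, ?_⟩
  rw [hi']
  refine hlim.congr fun B => ?_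
  have h : (Spec.nK K QBar G B).toNat = k' B :=
    (congrArg ENat.toNat (hk' B)).trans (ENat.toNat_natCast _)
  rw [h]

/-- all degrees -/
theorem a4_tr (n : ℕ) (G : Subgroup (Equiv.Perm (Fin n)))
    (hG : MulAction.IsPretransitive G (Fin n)) (h : Nonempty (G ≃* alternatingGroup (Fin 4)))
    (K : IntermediateField ℚ QBar) (hK : NumberField K) :
    (∀ B : ℝ, Spec.nK K QBar G B ≠ ⊤) ∧
    ∃ C : ℝ, 0 < C ∧ Tendsto
      (fun B : ℝ => ((Spec.nK K QBar G B).toNat : ℝ) /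
        (B ^ (1 / (Spec.indG G : ℝ)) * Real.log B ^ (Spec.betaAll K QBar G - 1))) atTop (𝓝 C) := by
  obtain ⟨e⟩ := h
  rcases H48.A4.a4_deg G hG e with h | h
  · subst h
    have hG4 := H48.A4.a4_four G e
    subst hG4
    obtain ⟨h1, -, -, h2, C, hC, h3⟩ := a4_every K hK
    refine ⟨h2, C, hC, ?_⟩
    rw [h1]
    exact h3
  · obtain ⟨h1, h2, C, hC, h3⟩ := a4_six G hG e h K
    refine ⟨h2, C, hC, ?_⟩
    rw [h1]
    simpa using h3

end H67.AT
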