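import Pool.Agent.H67.AT.Defs
import Pool.Agent.H38.EN.Nds

/-!
# AT (MP_b39724_nt) NDC: the count as a sum over the characters, 60-90 lines. File Pool/Agent/H67/AT/Ndc.lean

Copy of `nds` (H38/EN/Nds.lean, read it first) with `cf Q S χ ^ c` in the place of `cf Q S χ` (`1 ≤ cf ^ c` by `Real.one_le_rpow`, `one_le_nr`). The first claim:
`cf ^ c ≤ X` implies `cf ≤ (max X 1) ^ (1 / c)` (`Real.rpow_le_rpow`, `Real.rpow_mul`), so the set is a subset of the finite set of `hP`. `tf_mem` is in H38/EN/Nds.lean.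
-/

set_option autoImplicit false

open scoped NumberField Classical
open IsDedekindDomain H38.ML H63.MA H48.KV
open H48.T3 hiding Ch

noncomputable section

namespace H67.AT

variable {K : IntermediateField ℚ QBar} [NumberField K] {G : Type} [Group G]

theorem ndc_sum (k : KV G) (Q : DP K QBar) (S : Finset (Pl K)) (ds : (Gal(QBar/K) →* G) → ℕ)
    (d : ℕ) (c : ℝ) (hc : 0 < c)
    (hfin : ∀ χ ∈ H38.MT.Ch K, ∀ Y : ℝ, 1 ≤ Y → (Fib k Q S ds χ d Y).Finite)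
    (hP : ∀ X : ℝ, {χ : Gal(QBar/K) →* Multiplicative (ZMod 3) | χ ∈ H38.MT.Ch K ∧
      H38.MT.cf Q S χ ≤ X}.Finite) (X : ℝ) :
    {χ : Gal(QBar/K) →* Multiplicative (ZMod 3) | χ ∈ H38.MT.Ch K ∧
      H38.MT.cf Q S χ ^ c ≤ X}.Finite ∧ (NDc k Q S ds c d X).Finite ∧
    ∀ T : Finset (Gal(QBar/K) →* Multiplicative (ZMod 3)),
      (∀ χ, χ ∈ T ↔ χ ∈ H38.MT.Ch K ∧ H38.MT.cf Q S χ ^ c ≤ X) →
      (NDc k Q S ds c d X).ncard = ∑ χ ∈ T, (Fib k Q S ds χ d (X / H38.MT.cf Q S χ ^ c)).ncard := by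
  have hcf0 : ∀ χ, 1 ≤ H38.MT.cf Q S χ := fun χ => one_le_nr _
  have hcf : ∀ χ, 1 ≤ H38.MT.cf Q S χ ^ c := fun χ => Real.one_le_rpow (hcf0 χ) hc.le
  have hPc : {χ : Gal(QBar/K) →* Multiplicative (ZMod 3) | χ ∈ H38.MT.Ch K ∧
      H38.MT.cf Q S χ ^ c ≤ X}.Finite := by
    refine (hP ((max X 1) ^ (1 / c))).subset ?_
    rintro χ ⟨h1, h2⟩
    refine ⟨h1, ?_⟩
    have h3 : (0 : ℝ) ≤ H38.MT.cf Q S χ := zero_le_one.trans (hcf0 χ)
    have h4 : H38.MT.cf Q S χ = (H38.MT.cf Q S χ ^ c) ^ (1 / c) := by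
      rw [← Real.rpow_mul h3, mul_one_div_cancel hc.ne', Real.rpow_one]
    rw [h4]
    exact Real.rpow_le_rpow (Real.rpow_nonneg h3 c) (h2.trans (le_max_left _ _)) (by positivity)
  have hnr : ∀ (φ : Gal(QBar/K) →* G), FT φ → ∀ Y : ℝ,
      (nr (H38.EN.tf k Q S φ) ≤ Y ↔
        ∀ q : Finset (Pl K), (∀ l ∈ q, l ∈ TV k Q S φ) → nr q ≤ Y) := by
    intro φ hφ Y
    constructor
    · intro h q hq
      refine (nr_mono fun l hl => ?_).trans h
      rw [H38.EN.tf_mem k Q S φ hφ]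
      exact hq l hl
    · intro h
      exact h _ fun l hl => (H38.EN.tf_mem k Q S φ hφ l).1 hl
  have hFin : ∀ χ ∈ hPc.toFinset, (Fib k Q S ds χ d (X / H38.MT.cf Q S χ ^ c)).Finite := by
    intro χ hχ
    rw [Set.Finite.mem_toFinset] at hχ
    refine hfin χ hχ.1 _ ?_
    rw [one_le_div (by linarith [hcf χ])]
    exact hχ.2
  have hU : NDc k Q S ds c d X =
      ⋃ χ ∈ hPc.toFinset, Fib k Q S ds χ d (X / H38.MT.cf Q S χ ^ c) := by
    ext φ
    simp only [Set.mem_iUnion, exists_prop, Set.Finite.mem_toFinset]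
    constructor
    · rintro ⟨h1, h2, h3, h4⟩
      refine ⟨k.pi.comp φ, ⟨⟨ft_comp k.pi φ h1, k.sj.comp h2⟩, ?_⟩, h1, h2, rfl, h3, ?_⟩
      · refine le_trans ?_ h4
        have h5 := one_le_nr (H38.EN.tf k Q S φ)
        have h6 := hcf (k.pi.comp φ)
        nlinarith
      · rw [← hnr φ h1, le_div_iff₀ (by linarith [hcf (k.pi.comp φ)]), mul_comm]
        exact h4
    · rintro ⟨χ, ⟨hχ, hχX⟩, h1, h2, rfl, h3, h4⟩
      refine ⟨h1, h2, h3, ?_⟩
      rw [← hnr φ h1, le_div_iff₀ (by linarith [hcf (k.pi.comp φ)]), mul_comm] at h4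
      exact h4
  have hdisj : ∀ χ ∈ hPc.toFinset, ∀ χ' ∈ hPc.toFinset, χ ≠ χ' →
      Disjoint (Fib k Q S ds χ d (X / H38.MT.cf Q S χ ^ c))
        (Fib k Q S ds χ' d (X / H38.MT.cf Q S χ' ^ c)) := by
    intro χ _ χ' _ hne
    rw [Set.disjoint_left]
    rintro φ ⟨_, _, h1, _⟩ ⟨_, _, h2, _⟩
    exact hne (h1.symm.trans h2)
  have hND : (NDc k Q S ds c d X).Finite := by
    rw [hU]
    exact Set.Finite.biUnion (Finset.finite_toSet _) hFin
  refine ⟨hPc, hND, fun T hT => ?_⟩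
  have hTe : T = hPc.toFinset := by
    ext χ
    rw [hT, Set.Finite.mem_toFinset]
    exact Iff.rfl
  rw [hTe, hU]
  have h1 := Set.Finite.ncard_biUnion
    (t := (hPc.toFinset : Set (Gal(QBar/K) →* Multiplicative (ZMod 3))))
    (s := fun χ => Fib k Q S ds χ d (X / H38.MT.cf Q S χ ^ c)) (Finset.finite_toSet _)
    (fun χ hχ => hFin χ hχ) (fun χ hχ χ' hχ' hne => hdisj χ hχ χ' hχ' hne)
  rw [finsum_mem_coe_finset] at h1
  exact h1

end H67.AT
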